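import Pool.Agent.H20.Fib.D.ETab

namespace Pool.Agent.H20.Fib.D

set_option maxRecDepth 100000

theorem edge18 : edgeCheck kap (cls 18) (dat 18) (edg 18) (edg (dat 18).a0.nx) (edg (dat 18).a1.nx)
    (edg (dat 18).a2.nx) = true := by
  decide +kernel

theorem alL18 : alLow kap muT (cls 18) (dat 18) (edg 18) (edg (dat 18).a0.nx) = true := by
  decide +kernel

theorem alH18 : alHigh kap muT (cls 18) (dat 18) (edg 18) (edg (dat 18).a2.nx) = true := by
  decide +kernel

end Pool.Agent.H20.Fib.D
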