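import Pool.Agent.H20.Fib.D.Q00
import Pool.Agent.H20.Fib.D.Q01
import Pool.Agent.H20.Fib.D.Q02
import Pool.Agent.H20.Fib.D.Q03
import Pool.Agent.H20.Fib.D.Q04
import Pool.Agent.H20.Fib.D.Q05
import Pool.Agent.H20.Fib.D.Q06
import Pool.Agent.H20.Fib.D.Q07
import Pool.Agent.H20.Fib.D.Q08
import Pool.Agent.H20.Fib.D.Q09
import Pool.Agent.H20.Fib.D.Q10
import Pool.Agent.H20.Fib.D.Q11
import Pool.Agent.H20.Fib.D.Q12
import Pool.Agent.H20.Fib.D.Q13
import Pool.Agent.H20.Fib.D.Q14
import Pool.Agent.H20.Fib.D.Q15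
import Pool.Agent.H20.Fib.D.Q16
import Pool.Agent.H20.Fib.D.Q17
import Pool.Agent.H20.Fib.D.Q18
import Pool.Agent.H20.Fib.D.Q19
import Pool.Agent.H20.Fib.D.Q20
import Pool.Agent.H20.Fib.D.Q21
import Pool.Agent.H20.Fib.D.Q22
import Pool.Agent.H20.Fib.D.Q23
import Pool.Agent.H20.Fib.D.Q24
import Pool.Agent.H20.Fib.D.Q25
import Pool.Agent.H20.Fib.D.Q26
import Pool.Agent.H20.Fib.D.Q27
import Pool.Agent.H20.Fib.D.Q28
import Pool.Agent.H20.Fib.D.Q29
import Pool.Agent.H20.Fib.D.Q30
import Pool.Agent.H20.Fib.D.Q31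
import Pool.Agent.H20.Fib.D.Q32
import Pool.Agent.H20.Fib.D.Q33
import Pool.Agent.H20.Fib.D.Q34
import Pool.Agent.H20.Fib.D.Q35
import Pool.Agent.H20.Fib.D.Q36
import Pool.Agent.H20.Fib.AlphaS

/-!
# The edge constants of the class table: all checks, and the models of `mu`, `1 / mu`, `x`
-/

namespace Pool.Agent.H20.Fib.D

open TM
open Pool.Agent.H98.Fib (FixPt)

set_option maxRecDepth 100000

theorem al_low : ∀ m, m < 37 → m ≠ 0 →
    alLow kap muT (cls m) (dat m) (edg m) (edg (dat m).a0.nx) = true := by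
  intro m hm h0
  match m, hm, h0 with
  | 0, _, h0 => exact absurd rfl h0
  | 1, _, _ => exact alL01
  | 2, _, _ => exact alL02
  | 3, _, _ => exact alL03
  | 4, _, _ => exact alL04
  | 5, _, _ => exact alL05
  | 6, _, _ => exact alL06
  | 7, _, _ => exact alL07
  | 8, _, _ => exact alL08
  | 9, _, _ => exact alL09
  | 10, _, _ => exact alL10
  | 11, _, _ => exact alL11
  | 12, _, _ => exact alL12
  | 13, _, _ => exact alL13
  | 14, _, _ => exact alL14
  | 15, _, _ => exact alL15
  | 16, _, _ => exact alL16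
  | 17, _, _ => exact alL17
  | 18, _, _ => exact alL18
  | 19, _, _ => exact alL19
  | 20, _, _ => exact alL20
  | 21, _, _ => exact alL21
  | 22, _, _ => exact alL22
  | 23, _, _ => exact alL23
  | 24, _, _ => exact alL24
  | 25, _, _ => exact alL25
  | 26, _, _ => exact alL26
  | 27, _, _ => exact alL27
  | 28, _, _ => exact alL28
  | 29, _, _ => exact alL29
  | 30, _, _ => exact alL30
  | 31, _, _ => exact alL31
  | 32, _, _ => exact alL32
  | 33, _, _ => exact alL33
  | 34, _, _ => exact alL34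
  | 35, _, _ => exact alL35
  | 36, _, _ => exact alL36
  | (k + 37), hm, _ => omega

theorem al_high : ∀ m, m < 37 → alHigh kap muT (cls m) (dat m) (edg m) (edg (dat m).a2.nx) = true := by
  intro m hm
  match m, hm with
  | 0, _ => exact alH00
  | 1, _ => exact alH01
  | 2, _ => exact alH02
  | 3, _ => exact alH03
  | 4, _ => exact alH04
  | 5, _ => exact alH05
  | 6, _ => exact alH06
  | 7, _ => exact alH07
  | 8, _ => exact alH08
  | 9, _ => exact alH09
  | 10, _ => exact alH10
  | 11, _ => exact alH11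
  | 12, _ => exact alH12
  | 13, _ => exact alH13
  | 14, _ => exact alH14
  | 15, _ => exact alH15
  | 16, _ => exact alH16
  | 17, _ => exact alH17
  | 18, _ => exact alH18
  | 19, _ => exact alH19
  | 20, _ => exact alH20
  | 21, _ => exact alH21
  | 22, _ => exact alH22
  | 23, _ => exact alH23
  | 24, _ => exact alH24
  | 25, _ => exact alH25
  | 26, _ => exact alH26
  | 27, _ => exact alH27
  | 28, _ => exact alH28
  | 29, _ => exact alH29
  | 30, _ => exact alH30
  | 31, _ => exact alH31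
  | 32, _ => exact alH32
  | 33, _ => exact alH33
  | 34, _ => exact alH34
  | 35, _ => exact alH35
  | 36, _ => exact alH36
  | (k + 37), hm => omega

theorem al_chain : ∀ m, m < 37 → (fun i => (dat i).a0.nx)^[37] m = 0 := by
  decide +kernel

/-- All checks of the edge constants. -/
theorem alOK : AlOK kap muT xT imuT 37 cls dat edg 2573623 3093446 3671487 4 37 :=
  ⟨al_low, al_high, alL00, by decide +kernel, al_chain⟩

theorem al_model {ρ : Env} {a : ℤ} {m : ℕ} {v : ℝ} (h1 : (a : ℝ) - m ≤ v * 2 ^ 40)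
    (h2 : v * 2 ^ 40 ≤ a + m) : Rep ρ (blow (const a) m) v := by
  refine rep_blow rep_const ?_
  rw [al_abs, abs_le]
  constructor <;> linarith

theorem rep_muT {lam x y μ : ℝ} (F : FixPt lam x y μ) (ρ : Env) : Rep ρ muT μ := by
  have e : muT = blow (const 8348665187052) 11657 := rfl
  rw [e]
  have h1 := F.hμ1
  have h2 := F.hμ2
  refine al_model ?_ ?_
  · norm_num
    linarith
  · norm_num
    linarith

theorem rep_imuT {lam x y μ : ℝ} (F : FixPt lam x y μ) (ρ : Env) : Rep ρ imuT μ⁻¹ := by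
  have e : imuT = blow (const 144804683447) 222 := rfl
  rw [e]
  have h1 := F.hμ1
  have h2 := F.hμ2
  have hμ : 0 < μ := by linarith
  refine al_model ?_ ?_
  · rw [← div_eq_inv_mul, le_div_iff₀ hμ]
    norm_num
    linarith
  · rw [← div_eq_inv_mul, div_le_iff₀ hμ]
    norm_num
    linarith

theorem rep_xT {lam x y μ : ℝ} (F : FixPt lam x y μ) (ρ : Env) : Rep ρ xT x := by
  have e : xT = blow (const (-853513252592)) 442 := rfl
  rw [e]
  have h1 := F.hx1
  have h2 := F.hx2
  refine al_model ?_ ?_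
  · norm_num
    linarith
  · norm_num
    linarith

end Pool.Agent.H20.Fib.D
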