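import Pool.Agent.H20.Fib.D.Tab

namespace Pool.Agent.H20.Fib.D

set_option maxRecDepth 100000

theorem arc11_0 : arcCheck kap 0 ((dat 11).arc 0) (cls 11) (cls ((dat 11).arc 0).nx) = true := by
  decide +kernel

theorem arc11_1 : arcCheck kap 1 ((dat 11).arc 1) (cls 11) (cls ((dat 11).arc 1).nx) = true := by
  decide +kernel

theorem arc11_2 : arcCheck kap 2 ((dat 11).arc 2) (cls 11) (cls ((dat 11).arc 2).nx) = true := by
  decide +kernel

theorem gap11 : gapCheck kap (cls 11) (dat 11) = true := by
  decide +kernel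

end Pool.Agent.H20.Fib.D
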