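import Pool.Agent.H20.Fib.D.K00
import Pool.Agent.H20.Fib.D.K01
import Pool.Agent.H20.Fib.D.K02
import Pool.Agent.H20.Fib.D.K03
import Pool.Agent.H20.Fib.D.K04
import Pool.Agent.H20.Fib.D.K05
import Pool.Agent.H20.Fib.D.K06
import Pool.Agent.H20.Fib.D.K07
import Pool.Agent.H20.Fib.D.K08
import Pool.Agent.H20.Fib.D.K09
import Pool.Agent.H20.Fib.D.K10
import Pool.Agent.H20.Fib.D.K11
import Pool.Agent.H20.Fib.D.K12
import Pool.Agent.H20.Fib.D.K13
import Pool.Agent.H20.Fib.D.K14
import Pool.Agent.H20.Fib.D.K15
import Pool.Agent.H20.Fib.D.K16
import Pool.Agent.H20.Fib.D.K17
import Pool.Agent.H20.Fib.D.K18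
import Pool.Agent.H20.Fib.D.K19
import Pool.Agent.H20.Fib.D.K20
import Pool.Agent.H20.Fib.D.K21
import Pool.Agent.H20.Fib.D.K22
import Pool.Agent.H20.Fib.D.K23
import Pool.Agent.H20.Fib.D.K24
import Pool.Agent.H20.Fib.D.K25
import Pool.Agent.H20.Fib.D.K26
import Pool.Agent.H20.Fib.D.K27
import Pool.Agent.H20.Fib.D.K28
import Pool.Agent.H20.Fib.D.K29
import Pool.Agent.H20.Fib.D.K30
import Pool.Agent.H20.Fib.D.K31
import Pool.Agent.H20.Fib.D.K32
import Pool.Agent.H20.Fib.D.K33
import Pool.Agent.H20.Fib.D.K34
import Pool.Agent.H20.Fib.D.K35
import Pool.Agent.H20.Fib.D.K36
import Pool.Agent.H20.Fib.Sys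

/-!
# The class table passes all checks
-/

namespace Pool.Agent.H20.Fib.D

theorem gapAll (n : ℕ) (hn : n < 37) : gapCheck kap (cls n) (dat n) = true := by
  interval_cases n
  · exact gap00
  · exact gap01
  · exact gap02
  · exact gap03
  · exact gap04
  · exact gap05
  · exact gap06
  · exact gap07
  · exact gap08
  · exact gap09
  · exact gap10
  · exact gap11
  · exact gap12
  · exact gap13
  · exact gap14
  · exact gap15
  · exact gap16
  · exact gap17
  · exact gap18
  · exact gap19
  · exact gap20
  · exact gap21
  · exact gap22
  · exact gap23
  · exact gap24
  · exact gap25
  · exact gap26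
  · exact gap27
  · exact gap28
  · exact gap29
  · exact gap30
  · exact gap31
  · exact gap32
  · exact gap33
  · exact gap34
  · exact gap35
  · exact gap36

theorem arcAll (n : ℕ) (hn : n < 37) (i : ℕ) (hi : i < 3) :
    arcCheck kap i ((dat n).arc i) (cls n) (cls ((dat n).arc i).nx) = true := by
  interval_cases n
  · interval_cases i
    · exact arc00_0
    · exact arc00_1
    · exact arc00_2
  · interval_cases i
    · exact arc01_0
    · exact arc01_1
    · exact arc01_2
  · interval_cases i
    · exact arc02_0
    · exact arc02_1
    · exact arc02_2
  · interval_cases i
    · exact arc03_0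
    · exact arc03_1
    · exact arc03_2
  · interval_cases i
    · exact arc04_0
    · exact arc04_1
    · exact arc04_2
  · interval_cases i
    · exact arc05_0
    · exact arc05_1
    · exact arc05_2
  · interval_cases i
    · exact arc06_0
    · exact arc06_1
    · exact arc06_2
  · interval_cases i
    · exact arc07_0
    · exact arc07_1
    · exact arc07_2
  · interval_cases i
    · exact arc08_0
    · exact arc08_1
    · exact arc08_2
  · interval_cases i
    · exact arc09_0
    · exact arc09_1
    · exact arc09_2
  · interval_cases i
    · exact arc10_0
    · exact arc10_1
    · exact arc10_2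
  · interval_cases i
    · exact arc11_0
    · exact arc11_1
    · exact arc11_2
  · interval_cases i
    · exact arc12_0
    · exact arc12_1
    · exact arc12_2
  · interval_cases i
    · exact arc13_0
    · exact arc13_1
    · exact arc13_2
  · interval_cases i
    · exact arc14_0
    · exact arc14_1
    · exact arc14_2
  · interval_cases i
    · exact arc15_0
    · exact arc15_1
    · exact arc15_2
  · interval_cases i
    · exact arc16_0
    · exact arc16_1
    · exact arc16_2
  · interval_cases i
    · exact arc17_0
    · exact arc17_1
    · exact arc17_2
  · interval_cases i
    · exact arc18_0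
    · exact arc18_1
    · exact arc18_2
  · interval_cases i
    · exact arc19_0
    · exact arc19_1
    · exact arc19_2
  · interval_cases i
    · exact arc20_0
    · exact arc20_1
    · exact arc20_2
  · interval_cases i
    · exact arc21_0
    · exact arc21_1
    · exact arc21_2
  · interval_cases i
    · exact arc22_0
    · exact arc22_1
    · exact arc22_2
  · interval_cases i
    · exact arc23_0
    · exact arc23_1
    · exact arc23_2
  · interval_cases i
    · exact arc24_0
    · exact arc24_1
    · exact arc24_2
  · interval_cases i
    · exact arc25_0
    · exact arc25_1
    · exact arc25_2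
  · interval_cases i
    · exact arc26_0
    · exact arc26_1
    · exact arc26_2
  · interval_cases i
    · exact arc27_0
    · exact arc27_1
    · exact arc27_2
  · interval_cases i
    · exact arc28_0
    · exact arc28_1
    · exact arc28_2
  · interval_cases i
    · exact arc29_0
    · exact arc29_1
    · exact arc29_2
  · interval_cases i
    · exact arc30_0
    · exact arc30_1
    · exact arc30_2
  · interval_cases i
    · exact arc31_0
    · exact arc31_1
    · exact arc31_2
  · interval_cases i
    · exact arc32_0
    · exact arc32_1
    · exact arc32_2
  · interval_cases i
    · exact arc33_0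
    · exact arc33_1
    · exact arc33_2
  · interval_cases i
    · exact arc34_0
    · exact arc34_1
    · exact arc34_2
  · interval_cases i
    · exact arc35_0
    · exact arc35_1
    · exact arc35_2
  · interval_cases i
    · exact arc36_0
    · exact arc36_1
    · exact arc36_2

/-- bounds and flips of a class -/
noncomputable def smallOK (n : ℕ) : Bool :=
  Nat.ble (Nat.succ ((dat n).arc 0).nx) 37 && Nat.ble (Nat.succ ((dat n).arc 1).nx) 37 &&
  Nat.ble (Nat.succ ((dat n).arc 2).nx) 37 && decide (-1099511627776 ≤ (cls n).p) &&
  decide ((cls n).hi ≤ 1099511627776) && !(dat n).a0.fl && (dat n).a2.fl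

theorem small00 : smallOK 0 = true := by decide +kernel

theorem small01 : smallOK 1 = true := by decide +kernel

theorem small02 : smallOK 2 = true := by decide +kernel

theorem small03 : smallOK 3 = true := by decide +kernel

theorem small04 : smallOK 4 = true := by decide +kernel

theorem small05 : smallOK 5 = true := by decide +kernel

theorem small06 : smallOK 6 = true := by decide +kernel

theorem small07 : smallOK 7 = true := by decide +kernel

theorem small08 : smallOK 8 = true := by decide +kernel

theorem small09 : smallOK 9 = true := by decide +kernel

theorem small10 : smallOK 10 = true := by decide +kernel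

theorem small11 : smallOK 11 = true := by decide +kernel

theorem small12 : smallOK 12 = true := by decide +kernel

theorem small13 : smallOK 13 = true := by decide +kernel

theorem small14 : smallOK 14 = true := by decide +kernel

theorem small15 : smallOK 15 = true := by decide +kernel

theorem small16 : smallOK 16 = true := by decide +kernel

theorem small17 : smallOK 17 = true := by decide +kernel

theorem small18 : smallOK 18 = true := by decide +kernel

theorem small19 : smallOK 19 = true := by decide +kernel

theorem small20 : smallOK 20 = true := by decide +kernel

theorem small21 : smallOK 21 = true := by decide +kernel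

theorem small22 : smallOK 22 = true := by decide +kernel

theorem small23 : smallOK 23 = true := by decide +kernel

theorem small24 : smallOK 24 = true := by decide +kernel

theorem small25 : smallOK 25 = true := by decide +kernel

theorem small26 : smallOK 26 = true := by decide +kernel

theorem small27 : smallOK 27 = true := by decide +kernel

theorem small28 : smallOK 28 = true := by decide +kernel

theorem small29 : smallOK 29 = true := by decide +kernel

theorem small30 : smallOK 30 = true := by decide +kernel

theorem small31 : smallOK 31 = true := by decide +kernel

theorem small32 : smallOK 32 = true := by decide +kernel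

theorem small33 : smallOK 33 = true := by decide +kernel

theorem small34 : smallOK 34 = true := by decide +kernel

theorem small35 : smallOK 35 = true := by decide +kernel

theorem small36 : smallOK 36 = true := by decide +kernel

theorem smallAll (n : ℕ) (hn : n < 37) : smallOK n = true := by
  interval_cases n
  · exact small00
  · exact small01
  · exact small02
  · exact small03
  · exact small04
  · exact small05
  · exact small06
  · exact small07
  · exact small08
  · exact small09
  · exact small10
  · exact small11
  · exact small12
  · exact small13
  · exact small14
  · exact small15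
  · exact small16
  · exact small17
  · exact small18
  · exact small19
  · exact small20
  · exact small21
  · exact small22
  · exact small23
  · exact small24
  · exact small25
  · exact small26
  · exact small27
  · exact small28
  · exact small29
  · exact small30
  · exact small31
  · exact small32
  · exact small33
  · exact small34
  · exact small35
  · exact small36

theorem tabOK : TabOK kap 37 cls dat where
  gap := gapAll
  arc := arcAll
  nx n hn i hi := by
    have h := smallAll n hn
    unfold smallOK at h
    simp only [Bool.and_eq_true, Nat.ble_eq] at h
    obtain ⟨⟨⟨⟨⟨⟨h0, h1⟩, h2⟩, -⟩, -⟩, -⟩, -⟩ := h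
    interval_cases i
    · exact h0
    · exact h1
    · exact h2
  lo n hn := by
    have h := smallAll n hn
    unfold smallOK at h
    simp only [Bool.and_eq_true, decide_eq_true_eq] at h
    exact h.1.1.1.2
  hi n hn := by
    have h := smallAll n hn
    unfold smallOK at h
    simp only [Bool.and_eq_true, decide_eq_true_eq] at h
    exact h.1.1.2
  fl0 n hn := by
    have h := smallAll n hn
    unfold smallOK at h
    simp only [Bool.and_eq_true, Bool.not_eq_true'] at h
    exact h.1.2
  fl2 n hn := by
    have h := smallAll n hn
    unfold smallOK at h
    simp only [Bool.and_eq_true] at h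
    exact h.2

end Pool.Agent.H20.Fib.D
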