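import Pool.Agent.H20.Fib.EdgeC

/-! Class 0 (words ending in LLL): edges and rows, generated data. -/

namespace Pool.Agent.H20.Fib.D

set_option maxRecDepth 100000

noncomputable def e00 : EdgD := ⟨
  ⟨(-853218400473), 302036411, 1236005, 235367, 0, 883152160226⟩,
  ⟨(-603263552707), 760028135, 2327634, 1035830, 8, 982844737643⟩,
  ⟨(-392099879261), 1223799899, 2632892, 975610, 14, 1050558648351⟩,
  ⟨(-161323101963), 1590616055, 1333621, 1244406, 20, 1104977911692⟩,
  ⟨179655685645, 1563367181, (-2378557), 1720753, 30, 1140946546077⟩,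
  ⟨605347441162, 1361087692, (-7773493), 2436407, 43, 1086391398796⟩,
  ⟨1101714827415, 2256542372, 8809481, 10302737⟩, ⟨2764845366189, (-7027992206), 145148, 70862474⟩⟩

noncomputable def su00 : List RI := [.node 0, .node 1, .node 2, .node 3, .node 4, .node 5,
  .node 6, .node 7, .stop 1 8, .node 8, .node 9, .node 10,
  .node 11, .node 12, .node 13, .stop 2 14, .node 14, .node 15,
  .node 16, .node 17, .node 18, .node 19, .stop 3 20, .node 20,
  .node 21, .node 22, .node 23, .node 24, .node 25, .node 26,
  .node 27, .node 28, .node 29, .stop 4 30, .node 30, .node 31,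
  .node 32, .node 33, .node 34, .node 35, .node 36, .node 37,
  .node 38, .node 39, .node 40, .node 41, .node 42, .stop 5 43]

noncomputable def sd00 : List RI := [.node 43, .node 42, .node 41, .node 40, .node 39, .node 38,
  .node 37, .node 36, .node 35, .node 34, .node 33, .node 32,
  .node 31, .stop 4 30, .node 30, .node 29, .node 28, .node 27,
  .node 26, .node 25, .node 24, .node 23, .node 22, .node 21,
  .stop 3 20, .node 20, .node 19, .node 18, .node 17, .node 16,
  .node 15, .stop 2 14, .node 14, .node 13, .node 12, .node 11,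
  .node 10, .node 9, .stop 1 8, .node 8, .node 7, .node 6,
  .node 5, .node 4, .node 3, .node 2, .node 1, .stop 0 0]

end Pool.Agent.H20.Fib.D
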