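import Pool.Agent.H20.Fib.EdgeC

/-! Class 1 (words ending in MLL): edges and rows, generated data. -/

namespace Pool.Agent.H20.Fib.D

set_option maxRecDepth 100000

noncomputable def e01 : EdgD := ⟨
  ⟨(-852063259131), 326031303, 613266, 298115, 0, 886944903742⟩,
  ⟨(-600364585702), 815588105, 1139480, 1148978, 8, 989832555227⟩,
  ⟨(-387442821180), 1306553261, 1330028, 1128883, 14, 1059511523819⟩,
  ⟨(-155294280321), 1683672595, 403175, 1458377, 20, 1114966917872⟩,
  ⟨185541670449, 1631588703, (-1634162), 1672242, 30, 1150411530375⟩,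
  ⟨610412960289, 1386587502, (-4575472), 2142478, 43, 1092382239609⟩,
  ⟨1110344873632, 2434939316, 5018558, 12300499⟩, ⟨2738280969505, (-7391979962), 4178733, 65924185⟩⟩

noncomputable def su01 : List RI := [.node 0, .node 1, .node 2, .node 3, .node 4, .node 5,
  .node 6, .node 7, .stop 1 8, .node 8, .node 9, .node 10,
  .node 11, .node 12, .node 13, .stop 2 14, .node 14, .node 15,
  .node 16, .node 17, .node 18, .node 19, .stop 3 20, .node 20,
  .node 21, .node 22, .node 23, .node 24, .node 25, .node 26,
  .node 27, .node 28, .node 29, .stop 4 30, .node 30, .node 31,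
  .node 32, .node 33, .node 34, .node 35, .node 36, .node 37,
  .node 38, .node 39, .node 40, .node 41, .node 42, .stop 5 43]

noncomputable def sd01 : List RI := [.node 43, .node 42, .node 41, .node 40, .node 39, .node 38,
  .node 37, .node 36, .node 35, .node 34, .node 33, .node 32,
  .node 31, .stop 4 30, .node 30, .node 29, .node 28, .node 27,
  .node 26, .node 25, .node 24, .node 23, .node 22, .stop 3 21,
  .node 21, .node 20, .node 19, .node 18, .node 17, .node 16,
  .node 15, .stop 2 14, .node 14, .node 13, .node 12, .node 11,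
  .node 10, .node 9, .stop 1 8, .node 8, .node 7, .node 6,
  .node 5, .node 4, .node 3, .node 2, .node 1, .stop 0 0]

end Pool.Agent.H20.Fib.D
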