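import Pool.Agent.H20.Fib.EdgeC

/-! Class 2 (words ending in LRLL): edges and rows, generated data. -/

namespace Pool.Agent.H20.Fib.D

set_option maxRecDepth 100000

noncomputable def e02 : EdgD := ⟨
  ⟨(-850458299978), 220453612, 869582, 325983, 0, 892162254668⟩,
  ⟨(-596373875704), 546206223, 1550711, 1264824, 8, 999328362707⟩,
  ⟨(-381083917928), 867812667, 1646427, 1314309, 14, 1071523340866⟩,
  ⟨(-147163059815), 1104208208, 616194, 1555070, 21, 1128125934619⟩,
  ⟨193324977596, 1048814431, (-1491856), 2091386, 31, 1162474688832⟩,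
  ⟨616899384956, 863355288, (-3955857), 1958533, 43, 1099558176988⟩,
  ⟨1122312757606, 1643976770, 5881199, 12592549⟩, ⟨2702846401420, (-4784484709), 3343746, 65241899⟩⟩

noncomputable def su02 : List RI := [.node 0, .node 1, .node 2, .node 3, .node 4, .node 5,
  .node 6, .node 7, .stop 1 8, .node 8, .node 9, .node 10,
  .node 11, .node 12, .node 13, .stop 2 14, .node 14, .node 15,
  .node 16, .node 17, .node 18, .node 19, .node 20, .stop 3 21,
  .node 21, .node 22, .node 23, .node 24, .node 25, .node 26,
  .node 27, .node 28, .node 29, .stop 4 30, .node 30, .node 31,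
  .node 32, .node 33, .node 34, .node 35, .node 36, .node 37,
  .node 38, .node 39, .node 40, .node 41, .node 42, .stop 5 43]

noncomputable def sd02 : List RI := [.node 43, .node 42, .node 41, .node 40, .node 39, .node 38,
  .node 37, .node 36, .node 35, .node 34, .node 33, .node 32,
  .stop 4 31, .node 31, .node 30, .node 29, .node 28, .node 27,
  .node 26, .node 25, .node 24, .node 23, .node 22, .stop 3 21,
  .node 21, .node 20, .node 19, .node 18, .node 17, .node 16,
  .node 15, .stop 2 14, .node 14, .node 13, .node 12, .node 11,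
  .node 10, .node 9, .stop 1 8, .node 8, .node 7, .node 6,
  .node 5, .node 4, .node 3, .node 2, .node 1, .stop 0 0]

end Pool.Agent.H20.Fib.D
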