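import Pool.Agent.H20.Fib.EdgeC

/-! Class 3 (words ending in MRLL): edges and rows, generated data. -/

namespace Pool.Agent.H20.Fib.D

set_option maxRecDepth 100000

noncomputable def e03 : EdgD := ⟨
  ⟨(-849768207147), 136270702, 184666, 183947, 0, 894386900448⟩,
  ⟨(-594668343335), 335802832, 321274, 962823, 8, 1003342966195⟩,
  ⟨(-378380049556), 530999839, 339177, 838641, 14, 1076556053637⟩,
  ⟨(-143733397413), 671135020, 92584, 960506, 21, 1133567225063⟩,
  ⟨196567435029, 631059714, (-367794), 1336765, 31, 1167346690236⟩,
  ⟨619548178404, 511189035, (-883805), 1272813, 43, 1102326310439⟩,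
  ⟨1127455746898, 1014654942, 1321503, 11626433⟩, ⟨2688040105399, (-2885519239), 1571158, 56971843⟩⟩

noncomputable def su03 : List RI := [.node 0, .node 1, .node 2, .node 3, .node 4, .node 5,
  .node 6, .node 7, .stop 1 8, .node 8, .node 9, .node 10,
  .node 11, .node 12, .node 13, .stop 2 14, .node 14, .node 15,
  .node 16, .node 17, .node 18, .node 19, .node 20, .stop 3 21,
  .node 21, .node 22, .node 23, .node 24, .node 25, .node 26,
  .node 27, .node 28, .node 29, .node 30, .stop 4 31, .node 31,
  .node 32, .node 33, .node 34, .node 35, .node 36, .node 37,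
  .node 38, .node 39, .node 40, .node 41, .node 42, .stop 5 43]

noncomputable def sd03 : List RI := [.node 43, .node 42, .node 41, .node 40, .node 39, .node 38,
  .node 37, .node 36, .node 35, .node 34, .node 33, .node 32,
  .stop 4 31, .node 31, .node 30, .node 29, .node 28, .node 27,
  .node 26, .node 25, .node 24, .node 23, .node 22, .stop 3 21,
  .node 21, .node 20, .node 19, .node 18, .node 17, .node 16,
  .node 15, .stop 2 14, .node 14, .node 13, .node 12, .node 11,
  .node 10, .node 9, .stop 1 8, .node 8, .node 7, .node 6,
  .node 5, .node 4, .node 3, .node 2, .node 1, .stop 0 0]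

end Pool.Agent.H20.Fib.D
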