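import Pool.Agent.H20.Fib.EdgeC

/-! Class 4 (words ending in RRLL): edges and rows, generated data. -/

namespace Pool.Agent.H20.Fib.D

set_option maxRecDepth 100000

noncomputable def e04 : EdgD := ⟨
  ⟨(-849191215819), 174023391, 634463, 268571, 0, 896238365308⟩,
  ⟨(-593250199448), 426618216, 1099486, 1145844, 8, 1006660937388⟩,
  ⟨(-376142668277), 671558104, 1129647, 1114633, 14, 1080686521430⟩,
  ⟨(-140914283257), 843593006, 400946, 1264305, 21, 1137991074870⟩,
  ⟨199205941190, 785972498, (-1047226), 1652788, 31, 1171244231910⟩,
  ⟨621670443990, 627869196, (-2447040), 1589275, 43, 1104475531317⟩,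
  ⟨1131748211035, 1293523574, 4168696, 12274777⟩, ⟨2675963366184, (-3600380121), 2922483, 60358028⟩⟩

noncomputable def su04 : List RI := [.node 0, .node 1, .node 2, .node 3, .node 4, .node 5,
  .node 6, .node 7, .stop 1 8, .node 8, .node 9, .node 10,
  .node 11, .node 12, .node 13, .stop 2 14, .node 14, .node 15,
  .node 16, .node 17, .node 18, .node 19, .node 20, .stop 3 21,
  .node 21, .node 22, .node 23, .node 24, .node 25, .node 26,
  .node 27, .node 28, .node 29, .node 30, .stop 4 31, .node 31,
  .node 32, .node 33, .node 34, .node 35, .node 36, .node 37,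
  .node 38, .node 39, .node 40, .node 41, .node 42, .stop 5 43]

noncomputable def sd04 : List RI := [.node 43, .node 42, .node 41, .node 40, .node 39, .node 38,
  .node 37, .node 36, .node 35, .node 34, .node 33, .node 32,
  .stop 4 31, .node 31, .node 30, .node 29, .node 28, .node 27,
  .node 26, .node 25, .node 24, .node 23, .node 22, .stop 3 21,
  .node 21, .node 20, .node 19, .node 18, .node 17, .node 16,
  .node 15, .stop 2 14, .node 14, .node 13, .node 12, .node 11,
  .node 10, .node 9, .stop 1 8, .node 8, .node 7, .node 6,
  .node 5, .node 4, .node 3, .node 2, .node 1, .stop 0 0]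

end Pool.Agent.H20.Fib.D
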