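import Pool.Agent.H20.Fib.EdgeC

/-! Class 5 (words ending in RML): edges and rows, generated data. -/

namespace Pool.Agent.H20.Fib.D

set_option maxRecDepth 100000

noncomputable def e05 : EdgD := ⟨
  ⟨(-844380671393), 565037752, 37512, 533927, 0, 911370872176⟩,
  ⟨(-581473543178), 1356845065, (-176068), 1505123, 8, 1033506525985⟩,
  ⟨(-357608718711), 2101073813, (-283045), 1509538, 14, 1113708929714⟩,
  ⟨(-117728109368), 2570740484, (-1298142), 1582299, 21, 1172678921453⟩,
  ⟨220721610086, 2310290090, (-1541224), 1874735, 31, 1200754971940⟩,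
  ⟨638721961151, 1742588862, (-1843512), 2289025, 43, 1119478741635⟩,
  ⟨1167685251160, 4198105544, 2654380, 16423087⟩, ⟨2577917148419, (-10553391709), 15649662, 61700005⟩⟩

noncomputable def su05 : List RI := [.node 0, .node 1, .node 2, .node 3, .node 4, .node 5,
  .node 6, .node 7, .stop 1 8, .node 8, .node 9, .node 10,
  .node 11, .node 12, .node 13, .stop 2 14, .node 14, .node 15,
  .node 16, .node 17, .node 18, .node 19, .node 20, .stop 3 21,
  .node 21, .node 22, .node 23, .node 24, .node 25, .node 26,
  .node 27, .node 28, .node 29, .node 30, .stop 4 31, .node 31,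
  .node 32, .node 33, .node 34, .node 35, .node 36, .node 37,
  .node 38, .node 39, .node 40, .node 41, .node 42, .stop 5 43]

noncomputable def sd05 : List RI := [.node 43, .node 42, .node 41, .node 40, .node 39, .node 38,
  .node 37, .node 36, .node 35, .node 34, .node 33, .node 32,
  .stop 4 31, .node 31, .node 30, .node 29, .node 28, .node 27,
  .node 26, .node 25, .node 24, .node 23, .node 22, .stop 3 21,
  .node 21, .node 20, .node 19, .node 18, .node 17, .node 16,
  .node 15, .stop 2 14, .node 14, .node 13, .node 12, .node 11,
  .node 10, .node 9, .stop 1 8, .node 8, .node 7, .node 6,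
  .node 5, .node 4, .node 3, .node 2, .node 1, .stop 0 0]

end Pool.Agent.H20.Fib.D
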