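import Pool.Agent.H20.Fib.EdgeC

/-! Class 6 (words ending in MML): edges and rows, generated data. -/

namespace Pool.Agent.H20.Fib.D

set_option maxRecDepth 100000

noncomputable def e06 : EdgD := ⟨
  ⟨(-842524884659), 405420972, 1319686, 489237, 0, 917064365001⟩,
  ⟨(-577030939341), 968321090, 2109452, 1466189, 8, 1043302965998⟩,
  ⟨(-350744700852), 1493864273, 1905247, 1492198, 15, 1125392289443⟩,
  ⟨(-109360510681), 1815884973, 115462, 1566217, 22, 1184441433563⟩,
  ⟨228210015558, 1620079144, (-2311683), 1779236, 32, 1210063813717⟩,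
  ⟨644333791043, 1208211334, (-4586587), 1751140, 44, 1123514167918⟩,
  ⟨1181476448682, 3015180984, 9182324, 16346203⟩, ⟨2543775365527, (-7371127383), 12947088, 52995691⟩⟩

noncomputable def su06 : List RI := [.node 0, .node 1, .node 2, .node 3, .node 4, .node 5,
  .node 6, .node 7, .stop 1 8, .node 8, .node 9, .node 10,
  .node 11, .node 12, .node 13, .node 14, .stop 2 15, .node 15,
  .node 16, .node 17, .node 18, .node 19, .node 20, .node 21,
  .stop 3 22, .node 22, .node 23, .node 24, .node 25, .node 26,
  .node 27, .node 28, .node 29, .node 30, .stop 4 31, .node 31,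
  .node 32, .node 33, .node 34, .node 35, .node 36, .node 37,
  .node 38, .node 39, .node 40, .node 41, .node 42, .node 43,
  .stop 5 44]

noncomputable def sd06 : List RI := [.node 44, .node 43, .node 42, .node 41, .node 40, .node 39,
  .node 38, .node 37, .node 36, .node 35, .node 34, .node 33,
  .stop 4 32, .node 32, .node 31, .node 30, .node 29, .node 28,
  .node 27, .node 26, .node 25, .node 24, .node 23, .stop 3 22,
  .node 22, .node 21, .node 20, .node 19, .node 18, .node 17,
  .node 16, .stop 2 15, .node 15, .node 14, .node 13, .node 12,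
  .node 11, .node 10, .node 9, .stop 1 8, .node 8, .node 7,
  .node 6, .node 5, .node 4, .node 3, .node 2, .node 1,
  .stop 0 0]

end Pool.Agent.H20.Fib.D
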