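import Pool.Agent.H20.Fib.EdgeC

/-! Class 7 (words ending in LML): edges and rows, generated data. -/

namespace Pool.Agent.H20.Fib.D

set_option maxRecDepth 100000

noncomputable def e07 : EdgD := ⟨
  ⟨(-840666199491), 582718072, (-696329), 741315, 0, 922686704247⟩,
  ⟨(-572599975883), 1386239443, (-1390120), 1836448, 8, 1052891816054⟩,
  ⟨(-343916731147), 2133331517, (-1296360), 1888442, 15, 1136717739134⟩,
  ⟨(-101081020263), 2579912439, (-1516566), 1906697, 22, 1195677952158⟩,
  ⟨235579047748, 2289772726, (-427327), 2202242, 32, 1218732081679⟩,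
  ⟨649805767833, 1691982067, 90673, 2596255, 44, 1127007182903⟩,
  ⟨1195313717830, 4341952353, (-1546290), 18119967⟩, ⟨2510317964680, (-10375615897), 10299818, 63444753⟩⟩

noncomputable def su07 : List RI := [.node 0, .node 1, .node 2, .node 3, .node 4, .node 5,
  .node 6, .node 7, .stop 1 8, .node 8, .node 9, .node 10,
  .node 11, .node 12, .node 13, .node 14, .stop 2 15, .node 15,
  .node 16, .node 17, .node 18, .node 19, .node 20, .node 21,
  .stop 3 22, .node 22, .node 23, .node 24, .node 25, .node 26,
  .node 27, .node 28, .node 29, .node 30, .node 31, .stop 4 32,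
  .node 32, .node 33, .node 34, .node 35, .node 36, .node 37,
  .node 38, .node 39, .node 40, .node 41, .node 42, .node 43,
  .stop 5 44]

noncomputable def sd07 : List RI := [.node 44, .node 43, .node 42, .node 41, .node 40, .node 39,
  .node 38, .node 37, .node 36, .node 35, .node 34, .node 33,
  .stop 4 32, .node 32, .node 31, .node 30, .node 29, .node 28,
  .node 27, .node 26, .node 25, .node 24, .node 23, .stop 3 22,
  .node 22, .node 21, .node 20, .node 19, .node 18, .node 17,
  .node 16, .stop 2 15, .node 15, .node 14, .node 13, .node 12,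
  .node 11, .node 10, .node 9, .stop 1 8, .node 8, .node 7,
  .node 6, .node 5, .node 4, .node 3, .node 2, .node 1,
  .stop 0 0]

end Pool.Agent.H20.Fib.D
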