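import Pool.Agent.H20.Fib.EdgeC

/-! Class 8 (words ending in LLRL): edges and rows, generated data. -/

namespace Pool.Agent.H20.Fib.D

set_option maxRecDepth 100000

noncomputable def e08 : EdgD := ⟨
  ⟨(-831728634718), 288266747, 1235108, 574236, 0, 948612539702⟩,
  ⟨(-552197103746), 655895698, 1822327, 1446951, 8, 1094675153002⟩,
  ⟨(-313492492980), 978707464, 1532393, 1555881, 15, 1183533430061⟩,
  ⟨(-65642730862), 1136282018, 213442, 1532371, 22, 1239148654787⟩,
  ⟨265613168880, 964950044, (-1618413), 2003416, 32, 1248927935199⟩,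
  ⟨670613663820, 667835845, (-2876564), 1658924, 44, 1136186908260⟩,
  ⟨1260871491174, 2130028270, 7716532, 17996286⟩, ⟨2375482052116, (-4286160102), 8245786, 55952390⟩⟩

noncomputable def su08 : List RI := [.node 0, .node 1, .node 2, .node 3, .node 4, .node 5,
  .node 6, .node 7, .stop 1 8, .node 8, .node 9, .node 10,
  .node 11, .node 12, .node 13, .node 14, .stop 2 15, .node 15,
  .node 16, .node 17, .node 18, .node 19, .node 20, .node 21,
  .stop 3 22, .node 22, .node 23, .node 24, .node 25, .node 26,
  .node 27, .node 28, .node 29, .node 30, .node 31, .stop 4 32,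
  .node 32, .node 33, .node 34, .node 35, .node 36, .node 37,
  .node 38, .node 39, .node 40, .node 41, .node 42, .node 43,
  .stop 5 44]

noncomputable def sd08 : List RI := [.node 44, .node 43, .node 42, .node 41, .node 40, .node 39,
  .node 38, .node 37, .node 36, .node 35, .node 34, .node 33,
  .stop 4 32, .node 32, .node 31, .node 30, .node 29, .node 28,
  .node 27, .node 26, .node 25, .node 24, .node 23, .stop 3 22,
  .node 22, .node 21, .node 20, .node 19, .node 18, .node 17,
  .node 16, .stop 2 15, .node 15, .node 14, .node 13, .node 12,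
  .node 11, .node 10, .node 9, .stop 1 8, .node 8, .node 7,
  .node 6, .node 5, .node 4, .node 3, .node 2, .node 1,
  .stop 0 0]

end Pool.Agent.H20.Fib.D
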