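import Pool.Agent.H20.Fib.EdgeC

/-! Class 9 (words ending in MLRL): edges and rows, generated data. -/

namespace Pool.Agent.H20.Fib.D

set_option maxRecDepth 100000

noncomputable def e09 : EdgD := ⟨
  ⟨(-830706735253), 260887927, 462766, 426987, 0, 951460739812⟩,
  ⟨(-549881671206), 588584540, 620975, 1186181, 8, 1099168634328⟩,
  ⟨(-310048264786), 872655118, 494960, 1191849, 15, 1188453043586⟩,
  ⟨(-61659088846), 1005335790, (-102984), 1261628, 22, 1243557266490⟩,
  ⟨268980721285, 845838663, (-647276), 1739187, 32, 1251792443705⟩,
  ⟨672928479118, 577331524, (-1101937), 1350232, 44, 1136796006269⟩,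
  ⟨1268410923946, 1921723105, 3117374, 17018493⟩, ⟨2360541603057, (-3748172657), 4430782, 52925915⟩⟩

noncomputable def su09 : List RI := [.node 0, .node 1, .node 2, .node 3, .node 4, .node 5,
  .node 6, .node 7, .stop 1 8, .node 8, .node 9, .node 10,
  .node 11, .node 12, .node 13, .node 14, .stop 2 15, .node 15,
  .node 16, .node 17, .node 18, .node 19, .node 20, .node 21,
  .stop 3 22, .node 22, .node 23, .node 24, .node 25, .node 26,
  .node 27, .node 28, .node 29, .node 30, .node 31, .stop 4 32,
  .node 32, .node 33, .node 34, .node 35, .node 36, .node 37,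
  .node 38, .node 39, .node 40, .node 41, .node 42, .node 43,
  .stop 5 44]

noncomputable def sd09 : List RI := [.node 44, .node 43, .node 42, .node 41, .node 40, .node 39,
  .node 38, .node 37, .node 36, .node 35, .node 34, .node 33,
  .stop 4 32, .node 32, .node 31, .node 30, .node 29, .node 28,
  .node 27, .node 26, .node 25, .node 24, .stop 3 23, .node 23,
  .node 22, .node 21, .node 20, .node 19, .node 18, .node 17,
  .node 16, .stop 2 15, .node 15, .node 14, .node 13, .node 12,
  .node 11, .node 10, .node 9, .stop 1 8, .node 8, .node 7,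
  .node 6, .node 5, .node 4, .node 3, .node 2, .node 1,
  .stop 0 0]

end Pool.Agent.H20.Fib.D
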