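import Pool.Agent.H20.Fib.EdgeC

/-! Class 10 (words ending in RLRL): edges and rows, generated data. -/

namespace Pool.Agent.H20.Fib.D

set_option maxRecDepth 100000

noncomputable def e10 : EdgD := ⟨
  ⟨(-829243873770), 502015265, 3271920, 1119572, 0, 955496830132⟩,
  ⟨(-546601949638), 1119388111, 4582498, 2270623, 8, 1105446134275⟩,
  ⟨(-305208223793), 1645383664, 3663169, 2582234, 15, 1195234261121⟩,
  ⟨(-56113295278), 1876345746, (-195211), 2491499, 23, 1249531068690⟩,
  ⟨273616162887, 1559739048, (-3992149), 2833783, 32, 1255561485836⟩,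
  ⟨676062550599, 1045892299, (-6609844), 2440449, 44, 1137486081209⟩,
  ⟨1279160284931, 3682016194, 20033684, 22086693⟩, ⟨2340038685366, (-6884410167), 22332688, 61150849⟩⟩

noncomputable def su10 : List RI := [.node 0, .node 1, .node 2, .node 3, .node 4, .node 5,
  .node 6, .node 7, .stop 1 8, .node 8, .node 9, .node 10,
  .node 11, .node 12, .node 13, .node 14, .stop 2 15, .node 15,
  .node 16, .node 17, .node 18, .node 19, .node 20, .node 21,
  .node 22, .stop 3 23, .node 23, .node 24, .node 25, .node 26,
  .node 27, .node 28, .node 29, .node 30, .node 31, .stop 4 32,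
  .node 32, .node 33, .node 34, .node 35, .node 36, .node 37,
  .node 38, .node 39, .node 40, .node 41, .node 42, .node 43,
  .stop 5 44]

noncomputable def sd10 : List RI := [.node 44, .node 43, .node 42, .node 41, .node 40, .node 39,
  .node 38, .node 37, .node 36, .node 35, .node 34, .node 33,
  .stop 4 32, .node 32, .node 31, .node 30, .node 29, .node 28,
  .node 27, .node 26, .node 25, .node 24, .stop 3 23, .node 23,
  .node 22, .node 21, .node 20, .node 19, .node 18, .node 17,
  .node 16, .stop 2 15, .node 15, .node 14, .node 13, .node 12,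
  .node 11, .node 10, .node 9, .stop 1 8, .node 8, .node 7,
  .node 6, .node 5, .node 4, .node 3, .node 2, .node 1,
  .stop 0 0]

end Pool.Agent.H20.Fib.D
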