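import Pool.Agent.H20.Fib.EdgeC

/-! Class 11 (words ending in RMRL): edges and rows, generated data. -/

namespace Pool.Agent.H20.Fib.D

set_option maxRecDepth 100000

noncomputable def e11 : EdgD := ⟨
  ⟨(-825954412393), 235355753, 45613, 739814, 0, 964396308257⟩,
  ⟨(-539313451560), 513646420, (-7774), 1489230, 8, 1119028642041⟩,
  ⟨(-294537207530), 743513661, (-24782), 1750398, 16, 1209637034489⟩,
  ⟨(-44010015792), 832414497, (-171007), 1802898, 23, 1261902057831⟩,
  ⟨283625978860, 677882943, (-149890), 1718260, 32, 1263009268565⟩,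
  ⟨682718013025, 440685834, (-171043), 1269614, 44, 1138432538939⟩,
  ⟨1303268154204, 1714034693, 539353, 18536362⟩, ⟨2296021014176, (-2966588364), 1606296, 43304985⟩⟩

noncomputable def su11 : List RI := [.node 0, .node 1, .node 2, .node 3, .node 4, .node 5,
  .node 6, .node 7, .stop 1 8, .node 8, .node 9, .node 10,
  .node 11, .node 12, .node 13, .node 14, .stop 2 15, .node 15,
  .node 16, .node 17, .node 18, .node 19, .node 20, .node 21,
  .node 22, .stop 3 23, .node 23, .node 24, .node 25, .node 26,
  .node 27, .node 28, .node 29, .node 30, .node 31, .stop 4 32,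
  .node 32, .node 33, .node 34, .node 35, .node 36, .node 37,
  .node 38, .node 39, .node 40, .node 41, .node 42, .node 43,
  .stop 5 44]

noncomputable def sd11 : List RI := [.node 44, .node 43, .node 42, .node 41, .node 40, .node 39,
  .node 38, .node 37, .node 36, .node 35, .node 34, .node 33,
  .stop 4 32, .node 32, .node 31, .node 30, .node 29, .node 28,
  .node 27, .node 26, .node 25, .node 24, .stop 3 23, .node 23,
  .node 22, .node 21, .node 20, .node 19, .node 18, .node 17,
  .stop 2 16, .node 16, .node 15, .node 14, .node 13, .node 12,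
  .node 11, .node 10, .node 9, .stop 1 8, .node 8, .node 7,
  .node 6, .node 5, .node 4, .node 3, .node 2, .node 1,
  .stop 0 0]

end Pool.Agent.H20.Fib.D
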