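import Pool.Agent.H20.Fib.EdgeC

/-! Class 12 (words ending in MMRL): edges and rows, generated data. -/

namespace Pool.Agent.H20.Fib.D

set_option maxRecDepth 100000

noncomputable def e12 : EdgD := ⟨
  ⟨(-825192522208), 169065402, 246866, 546498, 0, 966422890211⟩,
  ⟨(-537653629809), 367763848, 321647, 1155719, 8, 1122050595639⟩,
  ⟨(-292137134013), 531269565, 209726, 1253044, 16, 1212772104412⟩,
  ⟨(-41326669817), 593220689, (-54103), 1292096, 23, 1264520104645⟩,
  ⟨285808332989, 481920760, (-300356), 1393338, 32, 1264507023651⟩,
  ⟨684133855782, 312057350, (-446736), 1095374, 44, 1138541970765⟩,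
  ⟨1308814508972, 1230482420, 1495735, 17269158⟩, ⟨2286479513814, (-2105014973), 1747369, 41667524⟩⟩

noncomputable def su12 : List RI := [.node 0, .node 1, .node 2, .node 3, .node 4, .node 5,
  .node 6, .node 7, .stop 1 8, .node 8, .node 9, .node 10,
  .node 11, .node 12, .node 13, .node 14, .node 15, .stop 2 16,
  .node 16, .node 17, .node 18, .node 19, .node 20, .node 21,
  .node 22, .stop 3 23, .node 23, .node 24, .node 25, .node 26,
  .node 27, .node 28, .node 29, .node 30, .node 31, .stop 4 32,
  .node 32, .node 33, .node 34, .node 35, .node 36, .node 37,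
  .node 38, .node 39, .node 40, .node 41, .node 42, .node 43,
  .stop 5 44]

noncomputable def sd12 : List RI := [.node 44, .node 43, .node 42, .node 41, .node 40, .node 39,
  .node 38, .node 37, .node 36, .node 35, .node 34, .node 33,
  .stop 4 32, .node 32, .node 31, .node 30, .node 29, .node 28,
  .node 27, .node 26, .node 25, .node 24, .stop 3 23, .node 23,
  .node 22, .node 21, .node 20, .node 19, .node 18, .node 17,
  .stop 2 16, .node 16, .node 15, .node 14, .node 13, .node 12,
  .node 11, .node 10, .node 9, .stop 1 8, .node 8, .node 7,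
  .node 6, .node 5, .node 4, .node 3, .node 2, .node 1,
  .stop 0 0]

end Pool.Agent.H20.Fib.D
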