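import Pool.Agent.H20.Fib.EdgeC

/-! Class 13 (words ending in LMRL): edges and rows, generated data. -/

namespace Pool.Agent.H20.Fib.D

set_option maxRecDepth 100000

noncomputable def e13 : EdgD := ⟨
  ⟨(-824410543038), 243437147, 122446, 666271, 0, 968489390027⟩,
  ⟨(-535955633771), 527591080, 100443, 1449797, 8, 1125114642274⟩,
  ⟨(-289686900353), 760323224, 27666, 1598077, 16, 1215933030478⟩,
  ⟨(-38594415566), 846456606, (-167057), 1613017, 23, 1267139114609⟩,
  ⟨288025054133, 685634678, (-234613), 1572368, 32, 1265981994105⟩,
  ⟨685566265080, 441926926, (-306648), 1192712, 44, 1138619596997⟩,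
  ⟨1314503592427, 1770185888, 978153, 18200878⟩, ⟨2276806242150, (-2989184287), 1966045, 42498042⟩⟩

noncomputable def su13 : List RI := [.node 0, .node 1, .node 2, .node 3, .node 4, .node 5,
  .node 6, .node 7, .stop 1 8, .node 8, .node 9, .node 10,
  .node 11, .node 12, .node 13, .node 14, .node 15, .stop 2 16,
  .node 16, .node 17, .node 18, .node 19, .node 20, .node 21,
  .node 22, .stop 3 23, .node 23, .node 24, .node 25, .node 26,
  .node 27, .node 28, .node 29, .node 30, .node 31, .stop 4 32,
  .node 32, .node 33, .node 34, .node 35, .node 36, .node 37,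
  .node 38, .node 39, .node 40, .node 41, .node 42, .node 43,
  .stop 5 44]

noncomputable def sd13 : List RI := [.node 44, .node 43, .node 42, .node 41, .node 40, .node 39,
  .node 38, .node 37, .node 36, .node 35, .node 34, .node 33,
  .stop 4 32, .node 32, .node 31, .node 30, .node 29, .node 28,
  .node 27, .node 26, .node 25, .node 24, .stop 3 23, .node 23,
  .node 22, .node 21, .node 20, .node 19, .node 18, .node 17,
  .stop 2 16, .node 16, .node 15, .node 14, .node 13, .node 12,
  .node 11, .node 10, .node 9, .stop 1 8, .node 8, .node 7,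
  .node 6, .node 5, .node 4, .node 3, .node 2, .node 1,
  .stop 0 0]

end Pool.Agent.H20.Fib.D
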