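import Pool.Agent.H20.Fib.EdgeC

/-! Class 14 (words ending in LRRL): edges and rows, generated data. -/

namespace Pool.Agent.H20.Fib.D

set_option maxRecDepth 100000

noncomputable def e14 : EdgD := ⟨
  ⟨(-821677840873), 446037870, 2719880, 968799, 0, 975603744473⟩,
  ⟨(-530109866241), 947333990, 3429425, 1959680, 8, 1135450835123⟩,
  ⟨(-281340784712), 1346305011, 2273999, 1923646, 16, 1226398336893⟩,
  ⟨(-29397142466), 1475502095, (-294823), 1846152, 23, 1275606883486⟩,
  ⟨295389614400, 1175163423, (-2914873), 2167592, 33, 1270545696857⟩,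
  ⟨690236985319, 739345545, (-4100296), 1610709, 44, 1138640034646⟩,
  ⟨1334258162781, 3217512908, 15577735, 21312857⟩, ⟨2244839069300, (-5083398140), 16232782, 46325689⟩⟩

noncomputable def su14 : List RI := [.node 0, .node 1, .node 2, .node 3, .node 4, .node 5,
  .node 6, .node 7, .stop 1 8, .node 8, .node 9, .node 10,
  .node 11, .node 12, .node 13, .node 14, .node 15, .stop 2 16,
  .node 16, .node 17, .node 18, .node 19, .node 20, .node 21,
  .node 22, .stop 3 23, .node 23, .node 24, .node 25, .node 26,
  .node 27, .node 28, .node 29, .node 30, .node 31, .stop 4 32,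
  .node 32, .node 33, .node 34, .node 35, .node 36, .node 37,
  .node 38, .node 39, .node 40, .node 41, .node 42, .node 43,
  .stop 5 44]

noncomputable def sd14 : List RI := [.node 44, .node 43, .node 42, .node 41, .node 40, .node 39,
  .node 38, .node 37, .node 36, .node 35, .node 34, .stop 4 33,
  .node 33, .node 32, .node 31, .node 30, .node 29, .node 28,
  .node 27, .node 26, .node 25, .node 24, .stop 3 23, .node 23,
  .node 22, .node 21, .node 20, .node 19, .node 18, .node 17,
  .stop 2 16, .node 16, .node 15, .node 14, .node 13, .node 12,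
  .node 11, .node 10, .stop 1 9, .node 9, .node 8, .node 7,
  .node 6, .node 5, .node 4, .node 3, .node 2, .node 1,
  .stop 0 0]

end Pool.Agent.H20.Fib.D
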