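import Pool.Agent.H20.Fib.EdgeC

/-! Class 15 (words ending in MRRL): edges and rows, generated data. -/

namespace Pool.Agent.H20.Fib.D

set_option maxRecDepth 100000

noncomputable def e15 : EdgD := ⟨
  ⟨(-820445735086), 195708463, 289608, 693774, 0, 978757062214⟩,
  ⟨(-527507641857), 410764545, 338827, 1485054, 9, 1139945731781⟩,
  ⟨(-277657441780), 578832293, 192272, 1457829, 16, 1230868151969⟩,
  ⟨(-25377464277), 628666675, (-88865), 1422084, 23, 1279138223019⟩,
  ⟨298576361485, 495775612, (-322711), 1584672, 33, 1272359579646⟩,
  ⟨692228642809, 307573858, (-417180), 1153796, 44, 1138539696513⟩,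
  ⟨1343123100818, 1403897035, 1712542, 19400213⟩, ⟨2231083392335, (-2135526096), 2064548, 42798091⟩⟩

noncomputable def su15 : List RI := [.node 0, .node 1, .node 2, .node 3, .node 4, .node 5,
  .node 6, .node 7, .stop 1 8, .node 8, .node 9, .node 10,
  .node 11, .node 12, .node 13, .node 14, .node 15, .stop 2 16,
  .node 16, .node 17, .node 18, .node 19, .node 20, .node 21,
  .node 22, .stop 3 23, .node 23, .node 24, .node 25, .node 26,
  .node 27, .node 28, .node 29, .node 30, .node 31, .node 32,
  .stop 4 33, .node 33, .node 34, .node 35, .node 36, .node 37,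
  .node 38, .node 39, .node 40, .node 41, .node 42, .node 43,
  .stop 5 44]

noncomputable def sd15 : List RI := [.node 44, .node 43, .node 42, .node 41, .node 40, .node 39,
  .node 38, .node 37, .node 36, .node 35, .node 34, .stop 4 33,
  .node 33, .node 32, .node 31, .node 30, .node 29, .node 28,
  .node 27, .node 26, .node 25, .node 24, .stop 3 23, .node 23,
  .node 22, .node 21, .node 20, .node 19, .node 18, .node 17,
  .stop 2 16, .node 16, .node 15, .node 14, .node 13, .node 12,
  .node 11, .node 10, .stop 1 9, .node 9, .node 8, .node 7,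
  .node 6, .node 5, .node 4, .node 3, .node 2, .node 1,
  .stop 0 0]

end Pool.Agent.H20.Fib.D
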