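import Pool.Agent.H20.Fib.EdgeC

/-! Class 17 (words ending in RRM): edges and rows, generated data. -/

namespace Pool.Agent.H20.Fib.D

set_option maxRecDepth 100000

noncomputable def e17 : EdgD := ⟨
  ⟨(-788256438721), 668914983, (-1741716), 1176757, 0, 1049460512041⟩,
  ⟨(-458084247049), 1273807644, (-2216332), 1934223, 10, 1235317955042⟩,
  ⟨(-175951320788), 1702679436, (-1304231), 1667779, 18, 1317645518742⟩,
  ⟨88029296852, 1707851197, 46772, 1663576, 26, 1334868858406⟩,
  ⟨392780306072, 1254915105, 1394210, 2126737, 34, 1281139845173⟩,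
  ⟨753604109835, 667554916, 1553541, 1483961, 45, 1101609490306⟩,
  ⟨1585015993005, 4764077717, (-7013784), 31744879⟩, ⟨1836213564607, (-4956238231), (-4667061), 40575760⟩⟩

noncomputable def su17 : List RI := [.node 0, .node 1, .node 2, .node 3, .node 4, .node 5,
  .node 6, .node 7, .node 8, .node 9, .stop 1 10, .node 10,
  .node 11, .node 12, .node 13, .node 14, .node 15, .node 16,
  .node 17, .stop 2 18, .node 18, .node 19, .node 20, .node 21,
  .node 22, .node 23, .node 24, .node 25, .stop 3 26, .node 26,
  .node 27, .node 28, .node 29, .node 30, .node 31, .node 32,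
  .node 33, .stop 4 34, .node 34, .node 35, .node 36, .node 37,
  .node 38, .node 39, .node 40, .node 41, .node 42, .node 43,
  .node 44, .stop 5 45]

noncomputable def sd17 : List RI := [.node 45, .node 44, .node 43, .node 42, .node 41, .node 40,
  .node 39, .node 38, .node 37, .node 36, .node 35, .stop 4 34,
  .node 34, .node 33, .node 32, .node 31, .node 30, .node 29,
  .node 28, .node 27, .stop 3 26, .node 26, .node 25, .node 24,
  .node 23, .node 22, .node 21, .node 20, .node 19, .stop 2 18,
  .node 18, .node 17, .node 16, .node 15, .node 14, .node 13,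
  .node 12, .node 11, .stop 1 10, .node 10, .node 9, .node 8,
  .node 7, .node 6, .node 5, .node 4, .node 3, .node 2,
  .node 1, .stop 0 0]

end Pool.Agent.H20.Fib.D
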