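import Pool.Agent.H20.Fib.EdgeC

/-! Class 18 (words ending in MRM): edges and rows, generated data. -/

namespace Pool.Agent.H20.Fib.D

set_option maxRecDepth 100000

noncomputable def e18 : EdgD := ⟨
  ⟨(-785817950869), 647007589, 399803, 1067226, 0, 1053922757433⟩,
  ⟨(-453438671268), 1233962288, 108112, 1832044, 10, 1239991128468⟩,
  ⟨(-169731859257), 1655370663, (-89919), 1522691, 18, 1320630140215⟩,
  ⟨94273269845, 1664087799, (-504808), 1597055, 26, 1335412161497⟩,
  ⟨397378636214, 1228795218, (-411344), 2200695, 34, 1279314036505⟩,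
  ⟨756054900063, 656433974, (-300727), 1447708, 45, 1098700144386⟩,
  ⟨1602417547886, 4629126703, 2846727, 31538189⟩, ⟨1818075551569, (-4841346178), 3589875, 40299356⟩⟩

noncomputable def su18 : List RI := [.node 0, .node 1, .node 2, .node 3, .node 4, .node 5,
  .node 6, .node 7, .node 8, .node 9, .stop 1 10, .node 10,
  .node 11, .node 12, .node 13, .node 14, .node 15, .node 16,
  .node 17, .stop 2 18, .node 18, .node 19, .node 20, .node 21,
  .node 22, .node 23, .node 24, .node 25, .stop 3 26, .node 26,
  .node 27, .node 28, .node 29, .node 30, .node 31, .node 32,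
  .node 33, .stop 4 34, .node 34, .node 35, .node 36, .node 37,
  .node 38, .node 39, .node 40, .node 41, .node 42, .node 43,
  .node 44, .stop 5 45]

noncomputable def sd18 : List RI := [.node 45, .node 44, .node 43, .node 42, .node 41, .node 40,
  .node 39, .node 38, .node 37, .node 36, .stop 4 35, .node 35,
  .node 34, .node 33, .node 32, .node 31, .node 30, .node 29,
  .node 28, .node 27, .stop 3 26, .node 26, .node 25, .node 24,
  .node 23, .node 22, .node 21, .node 20, .node 19, .stop 2 18,
  .node 18, .node 17, .node 16, .node 15, .node 14, .node 13,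
  .node 12, .node 11, .stop 1 10, .node 10, .node 9, .node 8,
  .node 7, .node 6, .node 5, .node 4, .node 3, .node 2,
  .node 1, .stop 0 0]

end Pool.Agent.H20.Fib.D
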