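import Pool.Agent.H20.Fib.EdgeC

/-! Class 19 (words ending in RLRM): edges and rows, generated data. -/

namespace Pool.Agent.H20.Fib.D

set_option maxRecDepth 100000

noncomputable def e19 : EdgD := ⟨
  ⟨(-782931927573), 379543938, (-669948), 942026, 0, 1059045551657⟩,
  ⟨(-447921798821), 724455888, (-808779), 1724117, 10, 1245260135554⟩,
  ⟨(-162305781173), 975200844, (-423247), 1502812, 18, 1323841048130⟩,
  ⟨101756280549, 982108137, 131523, 1548652, 26, 1335709412505⟩,
  ⟨402927441166, 728748319, 694900, 2022885, 35, 1276828635639⟩,
  ⟨759031088596, 390798447, 674762, 1270337, 45, 1095011123163⟩,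
  ⟨1623145261144, 2728001092, (-2694331), 30443947⟩, ⟨1796242189122, (-2861879714), (-2285715), 38099546⟩⟩

noncomputable def su19 : List RI := [.node 0, .node 1, .node 2, .node 3, .node 4, .node 5,
  .node 6, .node 7, .node 8, .node 9, .stop 1 10, .node 10,
  .node 11, .node 12, .node 13, .node 14, .node 15, .node 16,
  .node 17, .stop 2 18, .node 18, .node 19, .node 20, .node 21,
  .node 22, .node 23, .node 24, .node 25, .stop 3 26, .node 26,
  .node 27, .node 28, .node 29, .node 30, .node 31, .node 32,
  .node 33, .node 34, .stop 4 35, .node 35, .node 36, .node 37,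
  .node 38, .node 39, .node 40, .node 41, .node 42, .node 43,
  .node 44, .stop 5 45]

noncomputable def sd19 : List RI := [.node 45, .node 44, .node 43, .node 42, .node 41, .node 40,
  .node 39, .node 38, .node 37, .node 36, .stop 4 35, .node 35,
  .node 34, .node 33, .node 32, .node 31, .node 30, .node 29,
  .node 28, .node 27, .stop 3 26, .node 26, .node 25, .node 24,
  .node 23, .node 22, .node 21, .node 20, .node 19, .stop 2 18,
  .node 18, .node 17, .node 16, .node 15, .node 14, .node 13,
  .node 12, .node 11, .stop 1 10, .node 10, .node 9, .node 8,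
  .node 7, .node 6, .node 5, .node 4, .node 3, .node 2,
  .node 1, .stop 0 0]

end Pool.Agent.H20.Fib.D
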