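import Pool.Agent.H20.Fib.EdgeC

/-! Class 21 (words ending in LLRM): edges and rows, generated data. -/

namespace Pool.Agent.H20.Fib.D

set_option maxRecDepth 100000

noncomputable def e21 : EdgD := ⟨
  ⟨(-780901786297), 256886901, (-384806), 780743, 0, 1062546869465⟩,
  ⟨(-444040466564), 492244841, (-450102), 1491168, 10, 1248784139333⟩,
  ⟨(-157068753156), 666057084, (-223041), 1171125, 18, 1325874544321⟩,
  ⟨107038859114, 673182819, 106999, 1226217, 26, 1335686509432⟩,
  ⟨406858103995, 502516052, 422296, 1761543, 35, 1274881091135⟩,
  ⟨761144512307, 271001973, 407061, 1041701, 45, 1092287102881⟩,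
  ⟨1637776378887, 1857474580, (-1583008), 29359911⟩, ⟨1780820769464, (-1969854187), (-1476060), 35950603⟩⟩

noncomputable def su21 : List RI := [.node 0, .node 1, .node 2, .node 3, .node 4, .node 5,
  .node 6, .node 7, .node 8, .node 9, .stop 1 10, .node 10,
  .node 11, .node 12, .node 13, .node 14, .node 15, .node 16,
  .node 17, .stop 2 18, .node 18, .node 19, .node 20, .node 21,
  .node 22, .node 23, .node 24, .node 25, .stop 3 26, .node 26,
  .node 27, .node 28, .node 29, .node 30, .node 31, .node 32,
  .node 33, .node 34, .stop 4 35, .node 35, .node 36, .node 37,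
  .node 38, .node 39, .node 40, .node 41, .node 42, .node 43,
  .node 44, .stop 5 45]

noncomputable def sd21 : List RI := [.node 45, .node 44, .node 43, .node 42, .node 41, .node 40,
  .node 39, .node 38, .node 37, .node 36, .stop 4 35, .node 35,
  .node 34, .node 33, .node 32, .node 31, .node 30, .node 29,
  .node 28, .node 27, .stop 3 26, .node 26, .node 25, .node 24,
  .node 23, .node 22, .node 21, .node 20, .node 19, .stop 2 18,
  .node 18, .node 17, .node 16, .node 15, .node 14, .node 13,
  .node 12, .node 11, .stop 1 10, .node 10, .node 9, .node 8,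
  .node 7, .node 6, .node 5, .node 4, .node 3, .node 2,
  .node 1, .stop 0 0]

end Pool.Agent.H20.Fib.D
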