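import Pool.Agent.H20.Fib.EdgeC

/-! Class 22 (words ending in LMM): edges and rows, generated data. -/

namespace Pool.Agent.H20.Fib.D

set_option maxRecDepth 100000

noncomputable def e22 : EdgD := ⟨
  ⟨(-773230303424), 693491500, 2541333, 1194311, 0, 1075021470119⟩,
  ⟨(-429617031343), 1313621572, 2426529, 1641241, 10, 1260555551386⟩,
  ⟨(-137772299546), 1773500272, 1051363, 1278263, 19, 1331719458227⟩,
  ⟨126309875777, 1781624163, (-1034695), 1315053, 26, 1333965372133⟩,
  ⟨421096233265, 1329048272, (-2402864), 1631508, 35, 1266528136804⟩,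
  ⟨768700529398, 711297626, (-2540883), 1204775, 45, 1081831748096⟩,
  ⟨1692787957366, 5027871773, 14009248, 33453845⟩, ⟨1725573021508, (-5140805883), 14027134, 34173337⟩⟩

noncomputable def su22 : List RI := [.node 0, .node 1, .node 2, .node 3, .node 4, .node 5,
  .node 6, .node 7, .node 8, .node 9, .stop 1 10, .node 10,
  .node 11, .node 12, .node 13, .node 14, .node 15, .node 16,
  .node 17, .node 18, .stop 2 19, .node 19, .node 20, .node 21,
  .node 22, .node 23, .node 24, .node 25, .stop 3 26, .node 26,
  .node 27, .node 28, .node 29, .node 30, .node 31, .node 32,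
  .node 33, .node 34, .stop 4 35, .node 35, .node 36, .node 37,
  .node 38, .node 39, .node 40, .node 41, .node 42, .node 43,
  .node 44, .stop 5 45]

noncomputable def sd22 : List RI := [.node 45, .node 44, .node 43, .node 42, .node 41, .node 40,
  .node 39, .node 38, .node 37, .node 36, .stop 4 35, .node 35,
  .node 34, .node 33, .node 32, .node 31, .node 30, .node 29,
  .node 28, .node 27, .stop 3 26, .node 26, .node 25, .node 24,
  .node 23, .node 22, .node 21, .node 20, .stop 2 19, .node 19,
  .node 18, .node 17, .node 16, .node 15, .node 14, .node 13,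
  .node 12, .node 11, .stop 1 10, .node 10, .node 9, .node 8,
  .node 7, .node 6, .node 5, .node 4, .node 3, .node 2,
  .node 1, .stop 0 0]

end Pool.Agent.H20.Fib.D
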