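import Pool.Agent.H20.Fib.EdgeC

/-! Class 23 (words ending in MMM): edges and rows, generated data. -/

namespace Pool.Agent.H20.Fib.D

set_option maxRecDepth 100000

noncomputable def e23 : EdgD := ⟨
  ⟨(-770981079428), 493410521, 41919, 920530, 0, 1078454250515⟩,
  ⟨(-425370415736), 928186223, (-75491), 1379973, 10, 1263623325790⟩,
  ⟨(-132048241962), 1248643684, 49399, 1043226, 19, 1332955130950⟩,
  ⟨132048243471, 1248643793, (-49971), 1033629, 26, 1332955130688⟩,
  ⟨425370417185, 928185722, 75070, 1366351, 35, 1263623324746⟩,
  ⟨770981080999, 493410125, (-42153), 902046, 45, 1078454248124⟩,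
  ⟨1709083560296, 3571375466, 1425371, 31740733⟩, ⟨1709083558010, (-3571372980), 1427331, 31535982⟩⟩

noncomputable def su23 : List RI := [.node 0, .node 1, .node 2, .node 3, .node 4, .node 5,
  .node 6, .node 7, .node 8, .node 9, .stop 1 10, .node 10,
  .node 11, .node 12, .node 13, .node 14, .node 15, .node 16,
  .node 17, .node 18, .stop 2 19, .node 19, .node 20, .node 21,
  .node 22, .node 23, .node 24, .node 25, .stop 3 26, .node 26,
  .node 27, .node 28, .node 29, .node 30, .node 31, .node 32,
  .node 33, .node 34, .stop 4 35, .node 35, .node 36, .node 37,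
  .node 38, .node 39, .node 40, .node 41, .node 42, .node 43,
  .node 44, .stop 5 45]

noncomputable def sd23 : List RI := [.node 45, .node 44, .node 43, .node 42, .node 41, .node 40,
  .node 39, .node 38, .node 37, .node 36, .stop 4 35, .node 35,
  .node 34, .node 33, .node 32, .node 31, .node 30, .node 29,
  .node 28, .node 27, .stop 3 26, .node 26, .node 25, .node 24,
  .node 23, .node 22, .node 21, .node 20, .stop 2 19, .node 19,
  .node 18, .node 17, .node 16, .node 15, .node 14, .node 13,
  .node 12, .node 11, .stop 1 10, .node 10, .node 9, .node 8,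
  .node 7, .node 6, .node 5, .node 4, .node 3, .node 2,
  .node 1, .stop 0 0]

end Pool.Agent.H20.Fib.D
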