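import Pool.Agent.H20.Fib.EdgeC

/-! Class 24 (early word b): edges and rows, generated data. -/

namespace Pool.Agent.H20.Fib.D

set_option maxRecDepth 100000

noncomputable def e24 : EdgD := ⟨
  ⟨(-851097808988), 0, 0, 79570, 1, 890090635080⟩,
  ⟨(-597908150253), 0, 0, 309128, 8, 995694639276⟩,
  ⟨(-383447348179), 0, 0, 315974, 14, 1067087678256⟩,
  ⟨(-150059329875), 0, 0, 307609, 21, 1123480334680⟩,
  ⟨190751222278, 0, 0, 417135, 31, 1158543061409⟩,
  ⟨615011148741, 0, 0, 171782, 44, 1097527185257⟩,
  ⟨1117633867259, 0, 0, 11812458⟩, ⟨2715044008434, 0, 0, 30719683⟩⟩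

noncomputable def su24 : List RI := [.node 1, .node 2, .node 3, .node 4, .node 5, .node 6,
  .node 7, .stop 1 8, .node 8, .node 9, .node 10, .node 11,
  .node 12, .node 13, .stop 2 14, .node 14, .node 15, .node 16,
  .node 17, .node 18, .node 19, .node 20, .stop 3 21, .node 21,
  .node 22, .node 23, .node 24, .node 25, .node 26, .node 27,
  .node 28, .node 29, .node 30, .stop 4 31, .node 31, .node 32,
  .node 33, .node 34, .node 35, .node 36, .node 37, .node 38,
  .node 39, .node 40, .node 41, .node 42, .node 43, .stop 5 44]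

noncomputable def sd24 : List RI := [.node 44, .node 43, .node 42, .node 41, .node 40, .node 39,
  .node 38, .node 37, .node 36, .node 35, .node 34, .node 33,
  .node 32, .stop 4 31, .node 31, .node 30, .node 29, .node 28,
  .node 27, .node 26, .node 25, .node 24, .node 23, .node 22,
  .stop 3 21, .node 21, .node 20, .node 19, .node 18, .node 17,
  .node 16, .node 15, .stop 2 14, .node 14, .node 13, .node 12,
  .node 11, .node 10, .node 9, .stop 1 8, .node 8, .node 7,
  .node 6, .node 5, .node 4, .node 3, .node 2, .stop 0 1]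

end Pool.Agent.H20.Fib.D
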