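import Pool.Agent.H20.Fib.EdgeC

/-! Class 25 (early word bL): edges and rows, generated data. -/

namespace Pool.Agent.H20.Fib.D

set_option maxRecDepth 100000

noncomputable def e25 : EdgD := ⟨
  ⟨(-853195040008), 0, 0, 39391, 0, 883229168994⟩,
  ⟨(-603203892002), 0, 0, 271465, 8, 982989281860⟩,
  ⟨(-392002541186), 0, 0, 270076, 14, 1050747110227⟩,
  ⟨(-161194522631), 0, 0, 303799, 20, 1105192984337⟩,
  ⟨179785317751, 0, 0, 577051, 30, 1141158157931⟩,
  ⟨605464565088, 0, 0, 660401, 43, 1086533699557⟩,
  ⟨1101890937815, 0, 0, 10866371⟩, ⟨2764273141557, 0, 0, 43319299⟩⟩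

noncomputable def su25 : List RI := [.node 0, .node 1, .node 2, .node 3, .node 4, .node 5,
  .node 6, .node 7, .stop 1 8, .node 8, .node 9, .node 10,
  .node 11, .node 12, .node 13, .stop 2 14, .node 14, .node 15,
  .node 16, .node 17, .node 18, .node 19, .stop 3 20, .node 20,
  .node 21, .node 22, .node 23, .node 24, .node 25, .node 26,
  .node 27, .node 28, .node 29, .stop 4 30, .node 30, .node 31,
  .node 32, .node 33, .node 34, .node 35, .node 36, .node 37,
  .node 38, .node 39, .node 40, .node 41, .node 42, .stop 5 43]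

noncomputable def sd25 : List RI := [.node 43, .node 42, .node 41, .node 40, .node 39, .node 38,
  .node 37, .node 36, .node 35, .node 34, .node 33, .node 32,
  .node 31, .stop 4 30, .node 30, .node 29, .node 28, .node 27,
  .node 26, .node 25, .node 24, .node 23, .node 22, .node 21,
  .stop 3 20, .node 20, .node 19, .node 18, .node 17, .node 16,
  .node 15, .stop 2 14, .node 14, .node 13, .node 12, .node 11,
  .node 10, .node 9, .stop 1 8, .node 8, .node 7, .node 6,
  .node 5, .node 4, .node 3, .node 2, .node 1, .stop 0 0]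

end Pool.Agent.H20.Fib.D
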