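import Pool.Agent.H20.Fib.EdgeC

/-! Class 27 (early word bR): edges and rows, generated data. -/

namespace Pool.Agent.H20.Fib.D

set_option maxRecDepth 100000

noncomputable def e27 : EdgD := ⟨
  ⟨(-821092252826), 0, 0, 145798, 0, 977106638712⟩,
  ⟨(-528855336226), 0, 0, 458677, 8, 1137626013073⟩,
  ⟨(-279545444512), 0, 0, 424721, 16, 1228588424492⟩,
  ⟨(-27416416475), 0, 0, 439206, 23, 1277359904505⟩,
  ⟨296980948634, 0, 0, 741563, 33, 1271463648126⟩,
  ⟨691248579551, 0, 0, 671050, 44, 1138597259951⟩,
  ⟨1338509037061, 0, 0, 14017110⟩, ⟨2237950632730, 0, 0, 35088550⟩⟩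

noncomputable def su27 : List RI := [.node 0, .node 1, .node 2, .node 3, .node 4, .node 5,
  .node 6, .node 7, .stop 1 8, .node 8, .node 9, .node 10,
  .node 11, .node 12, .node 13, .node 14, .node 15, .stop 2 16,
  .node 16, .node 17, .node 18, .node 19, .node 20, .node 21,
  .node 22, .stop 3 23, .node 23, .node 24, .node 25, .node 26,
  .node 27, .node 28, .node 29, .node 30, .node 31, .node 32,
  .stop 4 33, .node 33, .node 34, .node 35, .node 36, .node 37,
  .node 38, .node 39, .node 40, .node 41, .node 42, .node 43,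
  .stop 5 44]

noncomputable def sd27 : List RI := [.node 44, .node 43, .node 42, .node 41, .node 40, .node 39,
  .node 38, .node 37, .node 36, .node 35, .node 34, .stop 4 33,
  .node 33, .node 32, .node 31, .node 30, .node 29, .node 28,
  .node 27, .node 26, .node 25, .node 24, .stop 3 23, .node 23,
  .node 22, .node 21, .node 20, .node 19, .node 18, .node 17,
  .stop 2 16, .node 16, .node 15, .node 14, .node 13, .node 12,
  .node 11, .node 10, .node 9, .stop 1 8, .node 8, .node 7,
  .node 6, .node 5, .node 4, .node 3, .node 2, .node 1,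
  .stop 0 0]

end Pool.Agent.H20.Fib.D
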