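import Pool.Agent.H20.Fib.EdgeC

/-! Class 28 (early word bLL): edges and rows, generated data. -/

namespace Pool.Agent.H20.Fib.D

set_option maxRecDepth 100000

noncomputable def e28 : EdgD := ⟨
  ⟨(-853471339689), 0, 0, 57177, 0, 882317448047⟩,
  ⟨(-603900583855), 0, 0, 657981, 8, 981299157717⟩,
  ⟨(-393126390743), 0, 0, 373710, 14, 1048567641118⟩,
  ⟨(-162658776079), 0, 0, 407335, 20, 1102738315045⟩,
  ⟨178340333459, 0, 0, 689295, 30, 1138791362256⟩,
  ⟨604198364402, 0, 0, 778281, 43, 1084985802529⟩,
  ⟨1099824853601, 0, 0, 10549900⟩, ⟨2770751323612, 0, 0, 50796524⟩⟩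

noncomputable def su28 : List RI := [.node 0, .node 1, .node 2, .node 3, .node 4, .node 5,
  .node 6, .node 7, .stop 1 8, .node 8, .node 9, .node 10,
  .node 11, .node 12, .node 13, .stop 2 14, .node 14, .node 15,
  .node 16, .node 17, .node 18, .node 19, .stop 3 20, .node 20,
  .node 21, .node 22, .node 23, .node 24, .node 25, .node 26,
  .node 27, .node 28, .node 29, .stop 4 30, .node 30, .node 31,
  .node 32, .node 33, .node 34, .node 35, .node 36, .node 37,
  .node 38, .node 39, .node 40, .node 41, .node 42, .stop 5 43]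

noncomputable def sd28 : List RI := [.node 43, .node 42, .node 41, .node 40, .node 39, .node 38,
  .node 37, .node 36, .node 35, .node 34, .node 33, .node 32,
  .node 31, .stop 4 30, .node 30, .node 29, .node 28, .node 27,
  .node 26, .node 25, .node 24, .node 23, .node 22, .node 21,
  .stop 3 20, .node 20, .node 19, .node 18, .node 17, .node 16,
  .node 15, .stop 2 14, .node 14, .node 13, .node 12, .node 11,
  .node 10, .node 9, .stop 1 8, .node 8, .node 7, .node 6,
  .node 5, .node 4, .node 3, .node 2, .node 1, .stop 0 0]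

end Pool.Agent.H20.Fib.D
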