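import Pool.Agent.H20.Fib.EdgeC

/-! Class 30 (early word bLR): edges and rows, generated data. -/

namespace Pool.Agent.H20.Fib.D

set_option maxRecDepth 100000

noncomputable def e30 : EdgD := ⟨
  ⟨(-819749814855), 0, 0, 280370, 0, 980523240388⟩,
  ⟨(-526051666700), 0, 0, 788263, 9, 1142432064431⟩,
  ⟨(-275610301563), 0, 0, 633126, 16, 1233312898171⟩,
  ⟨(-23159227819), 0, 0, 623394, 23, 1281042618120⟩,
  ⟨300321351079, 0, 0, 1030396, 33, 1273311512365⟩,
  ⟨693307539410, 0, 0, 776083, 44, 1138457936268⟩,
  ⟨1348107576492, 0, 0, 16467160⟩, ⟨2223575879990, 0, 0, 39739357⟩⟩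

noncomputable def su30 : List RI := [.node 0, .node 1, .node 2, .node 3, .node 4, .node 5,
  .node 6, .node 7, .node 8, .stop 1 9, .node 9, .node 10,
  .node 11, .node 12, .node 13, .node 14, .node 15, .stop 2 16,
  .node 16, .node 17, .node 18, .node 19, .node 20, .node 21,
  .node 22, .stop 3 23, .node 23, .node 24, .node 25, .node 26,
  .node 27, .node 28, .node 29, .node 30, .node 31, .node 32,
  .stop 4 33, .node 33, .node 34, .node 35, .node 36, .node 37,
  .node 38, .node 39, .node 40, .node 41, .node 42, .node 43,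
  .stop 5 44]

noncomputable def sd30 : List RI := [.node 44, .node 43, .node 42, .node 41, .node 40, .node 39,
  .node 38, .node 37, .node 36, .node 35, .node 34, .stop 4 33,
  .node 33, .node 32, .node 31, .node 30, .node 29, .node 28,
  .node 27, .node 26, .node 25, .node 24, .stop 3 23, .node 23,
  .node 22, .node 21, .node 20, .node 19, .node 18, .node 17,
  .stop 2 16, .node 16, .node 15, .node 14, .node 13, .node 12,
  .node 11, .node 10, .stop 1 9, .node 9, .node 8, .node 7,
  .node 6, .node 5, .node 4, .node 3, .node 2, .node 1,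
  .stop 0 0]

end Pool.Agent.H20.Fib.D
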