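import Pool.Agent.H20.Fib.EdgeC

/-! Class 31 (early word bML): edges and rows, generated data. -/

namespace Pool.Agent.H20.Fib.D

set_option maxRecDepth 100000

noncomputable def e31 : EdgD := ⟨
  ⟨(-840193721025), 0, 0, 160371, 0, 924103163123⟩,
  ⟨(-571475883067), 0, 0, 864703, 8, 1055295449915⟩,
  ⟨(-342186382073), 0, 0, 673181, 15, 1139540620728⟩,
  ⟨(-98988542648), 0, 0, 681125, 22, 1198453889940⟩,
  ⟨237436620272, 0, 0, 957918, 32, 1220839643146⟩,
  ⟨651178490928, 0, 0, 929924, 44, 1127814211567⟩,
  ⟨1198836478098, 0, 0, 14161773⟩, ⟨2501906013833, 0, 0, 46015266⟩⟩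

noncomputable def su31 : List RI := [.node 0, .node 1, .node 2, .node 3, .node 4, .node 5,
  .node 6, .node 7, .stop 1 8, .node 8, .node 9, .node 10,
  .node 11, .node 12, .node 13, .node 14, .stop 2 15, .node 15,
  .node 16, .node 17, .node 18, .node 19, .node 20, .node 21,
  .stop 3 22, .node 22, .node 23, .node 24, .node 25, .node 26,
  .node 27, .node 28, .node 29, .node 30, .node 31, .stop 4 32,
  .node 32, .node 33, .node 34, .node 35, .node 36, .node 37,
  .node 38, .node 39, .node 40, .node 41, .node 42, .node 43,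
  .stop 5 44]

noncomputable def sd31 : List RI := [.node 44, .node 43, .node 42, .node 41, .node 40, .node 39,
  .node 38, .node 37, .node 36, .node 35, .node 34, .node 33,
  .stop 4 32, .node 32, .node 31, .node 30, .node 29, .node 28,
  .node 27, .node 26, .node 25, .node 24, .node 23, .stop 3 22,
  .node 22, .node 21, .node 20, .node 19, .node 18, .node 17,
  .node 16, .stop 2 15, .node 15, .node 14, .node 13, .node 12,
  .node 11, .node 10, .node 9, .stop 1 8, .node 8, .node 7,
  .node 6, .node 5, .node 4, .node 3, .node 2, .node 1,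
  .stop 0 0]

end Pool.Agent.H20.Fib.D
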