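import Pool.Agent.H20.Fib.EdgeC

/-! Class 32 (early word bMM): edges and rows, generated data. -/

namespace Pool.Agent.H20.Fib.D

set_option maxRecDepth 100000

noncomputable def e32 : EdgD := ⟨
  ⟨(-773789285214), 0, 0, 527033, 0, 1074152624889⟩,
  ⟨(-430677321318), 0, 0, 937499, 10, 1259761340039⟩,
  ⟨(-139205104719), 0, 0, 590567, 19, 1331374507062⟩,
  ⟨124869160172, 0, 0, 589729, 26, 1334183099467⟩,
  ⟨420020491537, 0, 0, 961968, 35, 1267230332153⟩,
  ⟨768123993077, 0, 0, 563841, 45, 1082669221550⟩,
  ⟨1688732842852, 0, 0, 28076152⟩, ⟨1729737011771, 0, 0, 28998594⟩⟩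

noncomputable def su32 : List RI := [.node 0, .node 1, .node 2, .node 3, .node 4, .node 5,
  .node 6, .node 7, .node 8, .node 9, .stop 1 10, .node 10,
  .node 11, .node 12, .node 13, .node 14, .node 15, .node 16,
  .node 17, .node 18, .stop 2 19, .node 19, .node 20, .node 21,
  .node 22, .node 23, .node 24, .node 25, .stop 3 26, .node 26,
  .node 27, .node 28, .node 29, .node 30, .node 31, .node 32,
  .node 33, .node 34, .stop 4 35, .node 35, .node 36, .node 37,
  .node 38, .node 39, .node 40, .node 41, .node 42, .node 43,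
  .node 44, .stop 5 45]

noncomputable def sd32 : List RI := [.node 45, .node 44, .node 43, .node 42, .node 41, .node 40,
  .node 39, .node 38, .node 37, .node 36, .stop 4 35, .node 35,
  .node 34, .node 33, .node 32, .node 31, .node 30, .node 29,
  .node 28, .node 27, .stop 3 26, .node 26, .node 25, .node 24,
  .node 23, .node 22, .node 21, .node 20, .stop 2 19, .node 19,
  .node 18, .node 17, .node 16, .node 15, .node 14, .node 13,
  .node 12, .node 11, .stop 1 10, .node 10, .node 9, .node 8,
  .node 7, .node 6, .node 5, .node 4, .node 3, .node 2,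
  .node 1, .stop 0 0]

end Pool.Agent.H20.Fib.D
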