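import Pool.Agent.H20.Fib.EdgeC

/-! Class 34 (early word bRL): edges and rows, generated data. -/

namespace Pool.Agent.H20.Fib.D

set_option maxRecDepth 100000

noncomputable def e34 : EdgD := ⟨
  ⟨(-831684202687), 0, 0, 202214, 0, 948736864766⟩,
  ⟨(-552095323482), 0, 0, 828224, 8, 1094873778766⟩,
  ⟨(-313339681194), 0, 0, 664945, 15, 1183753361083⟩,
  ⟨(-65464176154), 0, 0, 677839, 22, 1239348347266⟩,
  ⟨265766161419, 0, 0, 1315393, 32, 1249060321049⟩,
  ⟨670720729417, 0, 0, 974773, 44, 1136216952223⟩,
  ⟨1261201363039, 0, 0, 15320748⟩, ⟨2374803855634, 0, 0, 50158384⟩⟩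

noncomputable def su34 : List RI := [.node 0, .node 1, .node 2, .node 3, .node 4, .node 5,
  .node 6, .node 7, .stop 1 8, .node 8, .node 9, .node 10,
  .node 11, .node 12, .node 13, .node 14, .stop 2 15, .node 15,
  .node 16, .node 17, .node 18, .node 19, .node 20, .node 21,
  .stop 3 22, .node 22, .node 23, .node 24, .node 25, .node 26,
  .node 27, .node 28, .node 29, .node 30, .node 31, .stop 4 32,
  .node 32, .node 33, .node 34, .node 35, .node 36, .node 37,
  .node 38, .node 39, .node 40, .node 41, .node 42, .node 43,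
  .stop 5 44]

noncomputable def sd34 : List RI := [.node 44, .node 43, .node 42, .node 41, .node 40, .node 39,
  .node 38, .node 37, .node 36, .node 35, .node 34, .node 33,
  .stop 4 32, .node 32, .node 31, .node 30, .node 29, .node 28,
  .node 27, .node 26, .node 25, .node 24, .node 23, .stop 3 22,
  .node 22, .node 21, .node 20, .node 19, .node 18, .node 17,
  .node 16, .stop 2 15, .node 15, .node 14, .node 13, .node 12,
  .node 11, .node 10, .node 9, .stop 1 8, .node 8, .node 7,
  .node 6, .node 5, .node 4, .node 3, .node 2, .node 1,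
  .stop 0 0]

end Pool.Agent.H20.Fib.D
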