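import Pool.Agent.H20.Fib.D.C00
import Pool.Agent.H20.Fib.D.C01
import Pool.Agent.H20.Fib.D.C02
import Pool.Agent.H20.Fib.D.C03
import Pool.Agent.H20.Fib.D.C04
import Pool.Agent.H20.Fib.D.C05
import Pool.Agent.H20.Fib.D.C06
import Pool.Agent.H20.Fib.D.C07
import Pool.Agent.H20.Fib.D.C08
import Pool.Agent.H20.Fib.D.C09
import Pool.Agent.H20.Fib.D.C10
import Pool.Agent.H20.Fib.D.C11
import Pool.Agent.H20.Fib.D.C12
import Pool.Agent.H20.Fib.D.C13
import Pool.Agent.H20.Fib.D.C14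
import Pool.Agent.H20.Fib.D.C15
import Pool.Agent.H20.Fib.D.C16
import Pool.Agent.H20.Fib.D.C17
import Pool.Agent.H20.Fib.D.C18
import Pool.Agent.H20.Fib.D.C19
import Pool.Agent.H20.Fib.D.C20
import Pool.Agent.H20.Fib.D.C21
import Pool.Agent.H20.Fib.D.C22
import Pool.Agent.H20.Fib.D.C23
import Pool.Agent.H20.Fib.D.C24
import Pool.Agent.H20.Fib.D.C25
import Pool.Agent.H20.Fib.D.C26
import Pool.Agent.H20.Fib.D.C27
import Pool.Agent.H20.Fib.D.C28
import Pool.Agent.H20.Fib.D.C29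
import Pool.Agent.H20.Fib.D.C30
import Pool.Agent.H20.Fib.D.C31
import Pool.Agent.H20.Fib.D.C32
import Pool.Agent.H20.Fib.D.C33
import Pool.Agent.H20.Fib.D.C34
import Pool.Agent.H20.Fib.D.C35
import Pool.Agent.H20.Fib.D.C36

/-! The class table. -/

namespace Pool.Agent.H20.Fib.D

/-- model of `1 + lam^2/4`, `|lam - 1.394| ≤ 10^-9` -/
noncomputable def kap : TM := ⟨1633664272154, 0, 0, 0, 0, 0, 0, 0, 0, 1633664272154, 768⟩

noncomputable def cls : ℕ → Cls
  | 0 => c00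
  | 1 => c01
  | 2 => c02
  | 3 => c03
  | 4 => c04
  | 5 => c05
  | 6 => c06
  | 7 => c07
  | 8 => c08
  | 9 => c09
  | 10 => c10
  | 11 => c11
  | 12 => c12
  | 13 => c13
  | 14 => c14
  | 15 => c15
  | 16 => c16
  | 17 => c17
  | 18 => c18
  | 19 => c19
  | 20 => c20
  | 21 => c21
  | 22 => c22
  | 23 => c23
  | 24 => c24
  | 25 => c25
  | 26 => c26
  | 27 => c27
  | 28 => c28
  | 29 => c29
  | 30 => c30
  | 31 => c31
  | 32 => c32
  | 33 => c33
  | 34 => c34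
  | 35 => c35
  | _ => c36

noncomputable def dat : ℕ → ClsD
  | 0 => d00
  | 1 => d01
  | 2 => d02
  | 3 => d03
  | 4 => d04
  | 5 => d05
  | 6 => d06
  | 7 => d07
  | 8 => d08
  | 9 => d09
  | 10 => d10
  | 11 => d11
  | 12 => d12
  | 13 => d13
  | 14 => d14
  | 15 => d15
  | 16 => d16
  | 17 => d17
  | 18 => d18
  | 19 => d19
  | 20 => d20
  | 21 => d21
  | 22 => d22
  | 23 => d23
  | 24 => d24
  | 25 => d25
  | 26 => d26
  | 27 => d27
  | 28 => d28
  | 29 => d29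
  | 30 => d30
  | 31 => d31
  | 32 => d32
  | 33 => d33
  | 34 => d34
  | 35 => d35
  | _ => d36

end Pool.Agent.H20.Fib.D
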