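import Pool.Agent.H20.Fib.D.E00
import Pool.Agent.H20.Fib.D.E01
import Pool.Agent.H20.Fib.D.E02
import Pool.Agent.H20.Fib.D.E03
import Pool.Agent.H20.Fib.D.E04
import Pool.Agent.H20.Fib.D.E05
import Pool.Agent.H20.Fib.D.E06
import Pool.Agent.H20.Fib.D.E07
import Pool.Agent.H20.Fib.D.E08
import Pool.Agent.H20.Fib.D.E09
import Pool.Agent.H20.Fib.D.E10
import Pool.Agent.H20.Fib.D.E11
import Pool.Agent.H20.Fib.D.E12
import Pool.Agent.H20.Fib.D.E13
import Pool.Agent.H20.Fib.D.E14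
import Pool.Agent.H20.Fib.D.E15
import Pool.Agent.H20.Fib.D.E16
import Pool.Agent.H20.Fib.D.E17
import Pool.Agent.H20.Fib.D.E18
import Pool.Agent.H20.Fib.D.E19
import Pool.Agent.H20.Fib.D.E20
import Pool.Agent.H20.Fib.D.E21
import Pool.Agent.H20.Fib.D.E22
import Pool.Agent.H20.Fib.D.E23
import Pool.Agent.H20.Fib.D.E24
import Pool.Agent.H20.Fib.D.E25
import Pool.Agent.H20.Fib.D.E26
import Pool.Agent.H20.Fib.D.E27
import Pool.Agent.H20.Fib.D.E28
import Pool.Agent.H20.Fib.D.E29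
import Pool.Agent.H20.Fib.D.E30
import Pool.Agent.H20.Fib.D.E31
import Pool.Agent.H20.Fib.D.E32
import Pool.Agent.H20.Fib.D.E33
import Pool.Agent.H20.Fib.D.E34
import Pool.Agent.H20.Fib.D.E35
import Pool.Agent.H20.Fib.D.E36
import Pool.Agent.H20.Fib.D.Tab

/-! The table of edges and rows. -/

namespace Pool.Agent.H20.Fib.D

/-- model of the multiplier `mu` -/
noncomputable def muT : TM := ⟨8348665187052, 0, 0, 0, 0, 0, 0, 0, 0, 8348665187052, 11657⟩

/-- model of `1 / mu` -/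
noncomputable def imuT : TM := ⟨144804683447, 0, 0, 0, 0, 0, 0, 0, 0, 144804683447, 222⟩

/-- model of the fixed point `x*` -/
noncomputable def xT : TM := ⟨5192296858534827628529642815967504, 0, 0, 0, 0, 0, 0, 0, 0, 853513252592, 442⟩

noncomputable def edg : ℕ → EdgD
  | 0 => e00
  | 1 => e01
  | 2 => e02
  | 3 => e03
  | 4 => e04
  | 5 => e05
  | 6 => e06
  | 7 => e07
  | 8 => e08
  | 9 => e09
  | 10 => e10
  | 11 => e11
  | 12 => e12
  | 13 => e13
  | 14 => e14
  | 15 => e15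
  | 16 => e16
  | 17 => e17
  | 18 => e18
  | 19 => e19
  | 20 => e20
  | 21 => e21
  | 22 => e22
  | 23 => e23
  | 24 => e24
  | 25 => e25
  | 26 => e26
  | 27 => e27
  | 28 => e28
  | 29 => e29
  | 30 => e30
  | 31 => e31
  | 32 => e32
  | 33 => e33
  | 34 => e34
  | 35 => e35
  | _ => e36

noncomputable def schU : ℕ → List RI
  | 0 => su00
  | 1 => su01
  | 2 => su02
  | 3 => su03
  | 4 => su04
  | 5 => su05
  | 6 => su06
  | 7 => su07
  | 8 => su08
  | 9 => su09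
  | 10 => su10
  | 11 => su11
  | 12 => su12
  | 13 => su13
  | 14 => su14
  | 15 => su15
  | 16 => su16
  | 17 => su17
  | 18 => su18
  | 19 => su19
  | 20 => su20
  | 21 => su21
  | 22 => su22
  | 23 => su23
  | 24 => su24
  | 25 => su25
  | 26 => su26
  | 27 => su27
  | 28 => su28
  | 29 => su29
  | 30 => su30
  | 31 => su31
  | 32 => su32
  | 33 => su33
  | 34 => su34
  | 35 => su35
  | _ => su36

noncomputable def schD : ℕ → List RI
  | 0 => sd00
  | 1 => sd01
  | 2 => sd02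
  | 3 => sd03
  | 4 => sd04
  | 5 => sd05
  | 6 => sd06
  | 7 => sd07
  | 8 => sd08
  | 9 => sd09
  | 10 => sd10
  | 11 => sd11
  | 12 => sd12
  | 13 => sd13
  | 14 => sd14
  | 15 => sd15
  | 16 => sd16
  | 17 => sd17
  | 18 => sd18
  | 19 => sd19
  | 20 => sd20
  | 21 => sd21
  | 22 => sd22
  | 23 => sd23
  | 24 => sd24
  | 25 => sd25
  | 26 => sd26
  | 27 => sd27
  | 28 => sd28
  | 29 => sd29
  | 30 => sd30
  | 31 => sd31
  | 32 => sd32
  | 33 => sd33
  | 34 => sd34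
  | 35 => sd35
  | _ => sd36

end Pool.Agent.H20.Fib.D
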