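import Pool.Agent.H20.Fib.D.Q00
import Pool.Agent.H20.Fib.D.Q01
import Pool.Agent.H20.Fib.D.Q02
import Pool.Agent.H20.Fib.D.Q03
import Pool.Agent.H20.Fib.D.Q04
import Pool.Agent.H20.Fib.D.Q05
import Pool.Agent.H20.Fib.D.Q06
import Pool.Agent.H20.Fib.D.Q07
import Pool.Agent.H20.Fib.D.Q08
import Pool.Agent.H20.Fib.D.Q09
import Pool.Agent.H20.Fib.D.Q10
import Pool.Agent.H20.Fib.D.Q11
import Pool.Agent.H20.Fib.D.Q12
import Pool.Agent.H20.Fib.D.Q13
import Pool.Agent.H20.Fib.D.Q14
import Pool.Agent.H20.Fib.D.Q15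
import Pool.Agent.H20.Fib.D.Q16
import Pool.Agent.H20.Fib.D.Q17
import Pool.Agent.H20.Fib.D.Q18
import Pool.Agent.H20.Fib.D.Q19
import Pool.Agent.H20.Fib.D.Q20
import Pool.Agent.H20.Fib.D.Q21
import Pool.Agent.H20.Fib.D.Q22
import Pool.Agent.H20.Fib.D.Q23
import Pool.Agent.H20.Fib.D.Q24
import Pool.Agent.H20.Fib.D.Q25
import Pool.Agent.H20.Fib.D.Q26
import Pool.Agent.H20.Fib.D.Q27
import Pool.Agent.H20.Fib.D.Q28
import Pool.Agent.H20.Fib.D.Q29
import Pool.Agent.H20.Fib.D.Q30
import Pool.Agent.H20.Fib.D.Q31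
import Pool.Agent.H20.Fib.D.Q32
import Pool.Agent.H20.Fib.D.Q33
import Pool.Agent.H20.Fib.D.Q34
import Pool.Agent.H20.Fib.D.Q35
import Pool.Agent.H20.Fib.D.Q36
import Pool.Agent.H20.Fib.EdgeS

/-!
# The edges of the class table pass all checks
-/

namespace Pool.Agent.H20.Fib.D

theorem edgesOK : EdgesOK kap 37 cls dat edg := by
  intro n hn
  interval_cases n
  · exact edge00
  · exact edge01
  · exact edge02
  · exact edge03
  · exact edge04
  · exact edge05
  · exact edge06
  · exact edge07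
  · exact edge08
  · exact edge09
  · exact edge10
  · exact edge11
  · exact edge12
  · exact edge13
  · exact edge14
  · exact edge15
  · exact edge16
  · exact edge17
  · exact edge18
  · exact edge19
  · exact edge20
  · exact edge21
  · exact edge22
  · exact edge23
  · exact edge24
  · exact edge25
  · exact edge26
  · exact edge27
  · exact edge28
  · exact edge29
  · exact edge30
  · exact edge31
  · exact edge32
  · exact edge33
  · exact edge34
  · exact edge35
  · exact edge36

end Pool.Agent.H20.Fib.D
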