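import Pool.Agent.H20.Fib.D.XTab

namespace Pool.Agent.H20.Fib.D

set_option maxRecDepth 100000

theorem ok54 : ctxOK imuT ctx dat tab 37 63 54 = true := by
  decide +kernel

theorem low54 : ctxLow kap imuT cls dat edg schU (ctx 54) = true := by
  decide +kernel

theorem high54 : ctxHigh kap imuT cls dat edg schD (ctx 54) = true := by
  decide +kernel

end Pool.Agent.H20.Fib.D
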