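import Pool.Agent.H98.Fib.RootC
import Pool.Agent.H20.Fib.D.C24

/-! The pieces of the root block `b`, class 24, generated data. -/

namespace Pool.Agent.H20.Fib.D

set_option maxRecDepth 100000

def rootP : List ℕ := [4264154492, 4264154492, 4264154492, 4264154492, 4264154492, 4264154492, 4264154492, 4264154492, 4264154492, 4264154492, 4264154492, 4264154492, 4264154492, 4264154492, 4264154492, 4264154492, 4264154492, 4264154492, 4264154492]

def rootC : List (ℤ × List ℕ) := [
  (-1437460015288, [818565742, 818565742]),
  (-1435748649800, [1020842612, 1020842612]),
  (-1433243465334, [1030904225, 1030904225]),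
  (-1430713705694, [1041219765, 1041219765]),
  (-1428158753768, [1051799821, 1051799821]),
  (-1425577966848, [1062655602, 1062655602]),
  (-1422970675129, [1073798992, 1073798992]),
  (-1420336180098, [1085242596, 1085242596]),
  (-1417673752790, [1096999800, 1096999800]),
  (-1414982631917, [1109084835, 1109084835]),
  (-1412262021841, [1121512846, 1121512846]),
  (-1409511090379, [1134299967, 1134299967]),
  (-1406728966427, [1147463407, 1147463407]),
  (-1403914737389, [1161021545, 1161021545]),
  (-1401067446372, [1174994028, 1174994028]),
  (-1398186089142, [1189401894, 1189401894]),
  (-1395269610802, [1204267692, 1204267692]),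
  (-1392316902172, [1219615633, 1219615633]),
  (-1389326795820, [1235471743, 1235471743]),
  (-1386298061723, [1251864042, 1251864042]),
  (-1383229402497, [1268822751, 1268822751]),
  (-1380119448158, [1286380510, 1286380510]),
  (-1376966750342, [1304572636, 1304572636]),
  (-1373769775928, [1323437414, 1323437414]),
  (-1370526899973, [1343016420, 1343016420]),
  (-1367236397880, [1363354893, 1363354893]),
  (-1363896436683, [1384502163, 1384502163]),
  (-1360505065335, [1406512136, 1406512136]),
  (-1357060203846, [1429443853, 1429443853]),
  (-1353559631108, [1453362134, 1453362134]),
  (-1350000971206, [1478338328, 1478338328]),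
  (-1346381677972, [1504451176, 1504451176]),
  (-1342699017512, [1531787827, 1531787827]),
  (-1338950048360, [1560445025, 1560445025]),
  (-1335131598858, [1590530508, 1590530508]),
  (-1331240241271, [1622164665, 1622164665]),
  (-1327272262049, [1655482507, 1655482507]),
  (-1323223627504, [845318015, 845318015, 845318015, 845318015]),
  (-1319089944008, [863898526, 863898526, 863898526, 863898526]),
  (-1314866411620, [706864269, 706864269, 706864269, 706864269, 706864269]),
  (-1310547769743, [904474732, 904474732, 904474732, 904474732]),
  (-1306128233092, [741367466, 741367466, 741367466, 741367466, 741367466]),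
  (-1301601415771, [633620866, 633620866, 633620866, 633620866, 633620866, 633620866]),
  (-1296960240632, [487905671, 487905671, 487905671, 487905671, 487905671, 487905671, 487905671, 487905671]),
  (-1292196830308, [334349603, 334349603, 334349603, 334349603, 334349603, 334349603, 334349603, 334349603, 334349603, 334349603, 334349603, 334349603]),
  (-1287302375147, [206475630, 206475630, 206475630, 206475630, 206475630, 206475630, 206475630, 206475630, 206475630, 206475630, 206475630, 206475630, 206475630, 206475630, 206475630, 206475630, 206475630, 206475630, 206475630, 206475630]),
  (-1282266971785, [131631292, 131631292, 131631292, 131631292, 131631292, 131631292, 131631292, 131631292, 131631292, 131631292, 131631292, 131631292, 131631292, 131631292, 131631292, 131631292, 131631292, 131631292, 131631292, 131631292, 131631292, 131631292, 131631292, 131631292, 131631292, 131631292])]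

open Pool.Agent.H98.Fib.RootJet in
theorem root24 : rootCheck c24 (-1437460015288) (-1436841795179) (-1277082755660) (-1275422144611) rootP rootC = true := by
  decide +kernel

end Pool.Agent.H20.Fib.D
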