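import Pool.Agent.H20.Fib.FamS
import Pool.Agent.H20.Fib.EdgeS
import Pool.Agent.H20.Fib.D.AlAll
import Pool.Agent.H20.Fib.D.XK00
import Pool.Agent.H20.Fib.D.XK01
import Pool.Agent.H20.Fib.D.XK02
import Pool.Agent.H20.Fib.D.XK03
import Pool.Agent.H20.Fib.D.XK04
import Pool.Agent.H20.Fib.D.XK05
import Pool.Agent.H20.Fib.D.XK06
import Pool.Agent.H20.Fib.D.XK07
import Pool.Agent.H20.Fib.D.XK08
import Pool.Agent.H20.Fib.D.XK09
import Pool.Agent.H20.Fib.D.XK10
import Pool.Agent.H20.Fib.D.XK11
import Pool.Agent.H20.Fib.D.XK12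
import Pool.Agent.H20.Fib.D.XK13
import Pool.Agent.H20.Fib.D.XK14
import Pool.Agent.H20.Fib.D.XK15
import Pool.Agent.H20.Fib.D.XK16
import Pool.Agent.H20.Fib.D.XK17
import Pool.Agent.H20.Fib.D.XK18
import Pool.Agent.H20.Fib.D.XK19
import Pool.Agent.H20.Fib.D.XK20
import Pool.Agent.H20.Fib.D.XK21
import Pool.Agent.H20.Fib.D.XK22
import Pool.Agent.H20.Fib.D.XK23
import Pool.Agent.H20.Fib.D.XK24
import Pool.Agent.H20.Fib.D.XK25
import Pool.Agent.H20.Fib.D.XK26
import Pool.Agent.H20.Fib.D.XK27
import Pool.Agent.H20.Fib.D.XK28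
import Pool.Agent.H20.Fib.D.XK29
import Pool.Agent.H20.Fib.D.XK30
import Pool.Agent.H20.Fib.D.XK31
import Pool.Agent.H20.Fib.D.XK32
import Pool.Agent.H20.Fib.D.XK33
import Pool.Agent.H20.Fib.D.XK34
import Pool.Agent.H20.Fib.D.XK35
import Pool.Agent.H20.Fib.D.XK36
import Pool.Agent.H20.Fib.D.XK37
import Pool.Agent.H20.Fib.D.XK38
import Pool.Agent.H20.Fib.D.XK39
import Pool.Agent.H20.Fib.D.XK40
import Pool.Agent.H20.Fib.D.XK41
import Pool.Agent.H20.Fib.D.XK42
import Pool.Agent.H20.Fib.D.XK43
import Pool.Agent.H20.Fib.D.XK44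
import Pool.Agent.H20.Fib.D.XK45
import Pool.Agent.H20.Fib.D.XK46
import Pool.Agent.H20.Fib.D.XK47
import Pool.Agent.H20.Fib.D.XK48
import Pool.Agent.H20.Fib.D.XK49
import Pool.Agent.H20.Fib.D.XK50
import Pool.Agent.H20.Fib.D.XK51
import Pool.Agent.H20.Fib.D.XK52
import Pool.Agent.H20.Fib.D.XK53
import Pool.Agent.H20.Fib.D.XK54
import Pool.Agent.H20.Fib.D.XK55
import Pool.Agent.H20.Fib.D.XK56
import Pool.Agent.H20.Fib.D.XK57
import Pool.Agent.H20.Fib.D.XK58
import Pool.Agent.H20.Fib.D.XK59
import Pool.Agent.H20.Fib.D.XK60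
import Pool.Agent.H20.Fib.D.XK61
import Pool.Agent.H20.Fib.D.XK62
import Pool.Agent.H98.Fib.RootF

/-!
# The family of the words for the tube data of `MP_9069b3_mp`

`fam_data`: the final theorem of part (B) for the tables of this folder.
-/

namespace Pool.Agent.H20.Fib.D

open Pool.Agent.H20.Fib.TM
open Pool.Agent.H98.Fib (FixPt Tube Fam HTree st0 exists_fixPt)

theorem ctx_ok : ∀ k, k < 63 → ctxOK imuT ctx dat tab 37 63 k = true := by
  intro k hk
  match k, hk with
  | 0, _ => exact ok00
  | 1, _ => exact ok01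
  | 2, _ => exact ok02
  | 3, _ => exact ok03
  | 4, _ => exact ok04
  | 5, _ => exact ok05
  | 6, _ => exact ok06
  | 7, _ => exact ok07
  | 8, _ => exact ok08
  | 9, _ => exact ok09
  | 10, _ => exact ok10
  | 11, _ => exact ok11
  | 12, _ => exact ok12
  | 13, _ => exact ok13
  | 14, _ => exact ok14
  | 15, _ => exact ok15
  | 16, _ => exact ok16
  | 17, _ => exact ok17
  | 18, _ => exact ok18
  | 19, _ => exact ok19
  | 20, _ => exact ok20
  | 21, _ => exact ok21
  | 22, _ => exact ok22
  | 23, _ => exact ok23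
  | 24, _ => exact ok24
  | 25, _ => exact ok25
  | 26, _ => exact ok26
  | 27, _ => exact ok27
  | 28, _ => exact ok28
  | 29, _ => exact ok29
  | 30, _ => exact ok30
  | 31, _ => exact ok31
  | 32, _ => exact ok32
  | 33, _ => exact ok33
  | 34, _ => exact ok34
  | 35, _ => exact ok35
  | 36, _ => exact ok36
  | 37, _ => exact ok37
  | 38, _ => exact ok38
  | 39, _ => exact ok39
  | 40, _ => exact ok40
  | 41, _ => exact ok41
  | 42, _ => exact ok42
  | 43, _ => exact ok43
  | 44, _ => exact ok44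
  | 45, _ => exact ok45
  | 46, _ => exact ok46
  | 47, _ => exact ok47
  | 48, _ => exact ok48
  | 49, _ => exact ok49
  | 50, _ => exact ok50
  | 51, _ => exact ok51
  | 52, _ => exact ok52
  | 53, _ => exact ok53
  | 54, _ => exact ok54
  | 55, _ => exact ok55
  | 56, _ => exact ok56
  | 57, _ => exact ok57
  | 58, _ => exact ok58
  | 59, _ => exact ok59
  | 60, _ => exact ok60
  | 61, _ => exact ok61
  | 62, _ => exact ok62
  | (k + 63), hk => omega

theorem ctx_low : ∀ k, k < 63 → ctxLow kap imuT cls dat edg schU (ctx k) = true := by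
  intro k hk
  match k, hk with
  | 0, _ => exact low00
  | 1, _ => exact low01
  | 2, _ => exact low02
  | 3, _ => exact low03
  | 4, _ => exact low04
  | 5, _ => exact low05
  | 6, _ => exact low06
  | 7, _ => exact low07
  | 8, _ => exact low08
  | 9, _ => exact low09
  | 10, _ => exact low10
  | 11, _ => exact low11
  | 12, _ => exact low12
  | 13, _ => exact low13
  | 14, _ => exact low14
  | 15, _ => exact low15
  | 16, _ => exact low16
  | 17, _ => exact low17
  | 18, _ => exact low18
  | 19, _ => exact low19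
  | 20, _ => exact low20
  | 21, _ => exact low21
  | 22, _ => exact low22
  | 23, _ => exact low23
  | 24, _ => exact low24
  | 25, _ => exact low25
  | 26, _ => exact low26
  | 27, _ => exact low27
  | 28, _ => exact low28
  | 29, _ => exact low29
  | 30, _ => exact low30
  | 31, _ => exact low31
  | 32, _ => exact low32
  | 33, _ => exact low33
  | 34, _ => exact low34
  | 35, _ => exact low35
  | 36, _ => exact low36
  | 37, _ => exact low37
  | 38, _ => exact low38
  | 39, _ => exact low39
  | 40, _ => exact low40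
  | 41, _ => exact low41
  | 42, _ => exact low42
  | 43, _ => exact low43
  | 44, _ => exact low44
  | 45, _ => exact low45
  | 46, _ => exact low46
  | 47, _ => exact low47
  | 48, _ => exact low48
  | 49, _ => exact low49
  | 50, _ => exact low50
  | 51, _ => exact low51
  | 52, _ => exact low52
  | 53, _ => exact low53
  | 54, _ => exact low54
  | 55, _ => exact low55
  | 56, _ => exact low56
  | 57, _ => exact low57
  | 58, _ => exact low58
  | 59, _ => exact low59
  | 60, _ => exact low60
  | 61, _ => exact low61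
  | 62, _ => exact low62
  | (k + 63), hk => omega

theorem ctx_high : ∀ k, k < 63 → ctxHigh kap imuT cls dat edg schD (ctx k) = true := by
  intro k hk
  match k, hk with
  | 0, _ => exact high00
  | 1, _ => exact high01
  | 2, _ => exact high02
  | 3, _ => exact high03
  | 4, _ => exact high04
  | 5, _ => exact high05
  | 6, _ => exact high06
  | 7, _ => exact high07
  | 8, _ => exact high08
  | 9, _ => exact high09
  | 10, _ => exact high10
  | 11, _ => exact high11
  | 12, _ => exact high12
  | 13, _ => exact high13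
  | 14, _ => exact high14
  | 15, _ => exact high15
  | 16, _ => exact high16
  | 17, _ => exact high17
  | 18, _ => exact high18
  | 19, _ => exact high19
  | 20, _ => exact high20
  | 21, _ => exact high21
  | 22, _ => exact high22
  | 23, _ => exact high23
  | 24, _ => exact high24
  | 25, _ => exact high25
  | 26, _ => exact high26
  | 27, _ => exact high27
  | 28, _ => exact high28
  | 29, _ => exact high29
  | 30, _ => exact high30
  | 31, _ => exact high31
  | 32, _ => exact high32
  | 33, _ => exact high33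
  | 34, _ => exact high34
  | 35, _ => exact high35
  | 36, _ => exact high36
  | 37, _ => exact high37
  | 38, _ => exact high38
  | 39, _ => exact high39
  | 40, _ => exact high40
  | 41, _ => exact high41
  | 42, _ => exact high42
  | 43, _ => exact high43
  | 44, _ => exact high44
  | 45, _ => exact high45
  | 46, _ => exact high46
  | 47, _ => exact high47
  | 48, _ => exact high48
  | 49, _ => exact high49
  | 50, _ => exact high50
  | 51, _ => exact high51
  | 52, _ => exact high52
  | 53, _ => exact high53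
  | 54, _ => exact high54
  | 55, _ => exact high55
  | 56, _ => exact high56
  | 57, _ => exact high57
  | 58, _ => exact high58
  | 59, _ => exact high59
  | 60, _ => exact high60
  | 61, _ => exact high61
  | 62, _ => exact high62
  | (k + 63), hk => omega

theorem imu_bd {lam x y μ : ℝ} (F : FixPt lam x y μ) :
    |μ⁻¹ * 2 ^ 40 - (imuT.c : ℝ)| ≤ (imuT.r : ℝ) := by
  have ec : imuT.c = 144804683447 := rfl
  have er : imuT.r = 222 := rfl
  have h1 := F.hμ1
  have h2 := F.hμ2
  have hμ : 0 < μ := by linarith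
  have hi : μ * μ⁻¹ = 1 := mul_inv_cancel₀ hμ.ne'
  have hi0 : 0 < μ⁻¹ := inv_pos.mpr hμ
  rw [ec, er, abs_le]
  push_cast
  constructor
  · have : (144804683447 - 222 : ℝ) / 2 ^ 40 ≤ μ⁻¹ := by
      rw [← one_div, div_le_div_iff₀ (by norm_num) hμ]
      norm_num
      linarith
    rw [div_le_iff₀ (by norm_num)] at this
    linarith
  · have : μ⁻¹ ≤ (144804683447 + 222 : ℝ) / 2 ^ 40 := by
      rw [← one_div, div_le_div_iff₀ hμ (by norm_num)]
      norm_num
      linarith
    rw [le_div_iff₀ (by norm_num)] at this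
    linarith

theorem root_ci : (ctx 0).ci = st0.ci := rfl

theorem root_box : ∃ x n, (ctx 0).box.In st0.u st0.eta x n := by
  refine ⟨0, 0, ?_, ?_, ?_, ?_⟩
  · norm_num
  · norm_num
  · show (0 : ℝ) * 2 ^ 40 = ((0 : ℤ) : ℝ) + ((1 : ℕ) : ℝ) * 0
    norm_num
  · show (0 : ℝ) * 2 ^ 40 = ((0 : ℤ) : ℝ) + ((0 : ℤ) : ℝ) * 0 + ((1 : ℕ) : ℝ) * 0
    norm_num

/-- **Part (B), all words.** -/
theorem fam_data {lam : ℝ} (hl : |lam - 1394 / 1000| ≤ 1 / 1000000000) (hk : KapOK lam kap)
    (hT : TabOK kap 37 cls dat) {l r : ℝ} (hR : RootOK lam 37 cls st0 l r)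
    (hE : EdgesOK kap 37 cls dat edg) :
    ∃ (μ : ℝ) (A B : List (Fin 3) → ℝ) (x n : List (Fin 3) → ℝ),
      Fam tab 0 (mkTube hk hT hR).tree A B μ (ctxW ctx dat st0) x n := by
  obtain ⟨x0, y0, μ, F⟩ := exists_fixPt hl
  have hEd := edOK hk hT hR hE
  obtain ⟨A, B, a1, a2, a3, a4, a5, a6⟩ := exists_consts hk hT hR F (rep_muT F) (rep_xT F)
    (rep_imuT F) alOK hEd.low hEd.high
  obtain ⟨x, n, h⟩ := fam_of hk hT hR hEd F ⟨a1, a2, a3, a4, a5, a6⟩ (rep_imuT F) (imu_bd F)
    (by norm_num) ctx_ok ctx_low ctx_high root_ci root_box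
  exact ⟨μ, A, B, x, n, h⟩

end Pool.Agent.H20.Fib.D
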