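import Pool.Agent.H20.Fib.D.ETab

namespace Pool.Agent.H20.Fib.D

set_option maxRecDepth 100000

theorem edge00 : edgeCheck kap (cls 0) (dat 0) (edg 0) (edg (dat 0).a0.nx) (edg (dat 0).a1.nx)
    (edg (dat 0).a2.nx) = true := by
  decide +kernel

theorem alL00 : alFix kap muT xT imuT (cls 0) (dat 0) (edg 0) 2573623 3093446 3671487 4 = true := by
  decide +kernel

theorem alH00 : alHigh kap muT (cls 0) (dat 0) (edg 0) (edg (dat 0).a2.nx) = true := by
  decide +kernel

end Pool.Agent.H20.Fib.D
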