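import Pool.Agent.H20.Fib.D.X0
import Pool.Agent.H20.Fib.D.X1
import Pool.Agent.H20.Fib.D.X2
import Pool.Agent.H20.Fib.D.X3
import Pool.Agent.H20.Fib.D.X4
import Pool.Agent.H20.Fib.D.X5
import Pool.Agent.H20.Fib.D.X6
import Pool.Agent.H20.Fib.D.X7
import Pool.Agent.H20.Fib.D.ETab
import Pool.Agent.H20.Fib.D.TabC

/-! The table of contexts. -/

namespace Pool.Agent.H20.Fib.D

noncomputable def ctx : ℕ → CtxD
  | 0 => x00
  | 1 => x01
  | 2 => x02
  | 3 => x03
  | 4 => x04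
  | 5 => x05
  | 6 => x06
  | 7 => x07
  | 8 => x08
  | 9 => x09
  | 10 => x10
  | 11 => x11
  | 12 => x12
  | 13 => x13
  | 14 => x14
  | 15 => x15
  | 16 => x16
  | 17 => x17
  | 18 => x18
  | 19 => x19
  | 20 => x20
  | 21 => x21
  | 22 => x22
  | 23 => x23
  | 24 => x24
  | 25 => x25
  | 26 => x26
  | 27 => x27
  | 28 => x28
  | 29 => x29
  | 30 => x30
  | 31 => x31
  | 32 => x32
  | 33 => x33
  | 34 => x34
  | 35 => x35
  | 36 => x36
  | 37 => x37
  | 38 => x38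
  | 39 => x39
  | 40 => x40
  | 41 => x41
  | 42 => x42
  | 43 => x43
  | 44 => x44
  | 45 => x45
  | 46 => x46
  | 47 => x47
  | 48 => x48
  | 49 => x49
  | 50 => x50
  | 51 => x51
  | 52 => x52
  | 53 => x53
  | 54 => x54
  | 55 => x55
  | 56 => x56
  | 57 => x57
  | 58 => x58
  | 59 => x59
  | 60 => x60
  | 61 => x61
  | _ => x62

end Pool.Agent.H20.Fib.D
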